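import Mathlib

/-!
# Local inversions of bicolored graphs and the colour-reversal number

Definitions (following the problem file) and the basic frame calculus.
-/

namespace Pool.Agent.H40.CR

variable {V : Type*}

/-- The local complement `G_a`: the adjacency of two distinct neighbours of `a` is switched, all
other adjacencies are unchanged. -/
def localComp (G : SimpleGraph V) (a : V) : SimpleGraph V where
  Adj x y := x ≠ y ∧
    ((G.Adj a x ∧ G.Adj a y) ∧ ¬ G.Adj x y ∨ ¬ (G.Adj a x ∧ G.Adj a y) ∧ G.Adj x y)
  symm := ⟨by
    intro x y h
    have e := G.adj_comm x y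
    have h1 := h.1.symm
    have h2 := h.2
    refine ⟨h1, ?_⟩
    tauto⟩
  loopless := ⟨fun x h => h.1 rfl⟩

open Classical in
/-- The local inversion of the bicolored graph `B = (G, β)` at `a`: the graph is replaced by its
local complement at `a` and the colours of all neighbours of `a` are flipped. -/
noncomputable def invert (B : SimpleGraph V × (V → ℤˣ)) (a : V) : SimpleGraph V × (V → ℤˣ) :=
  (localComp B.1 a, fun x => if B.1.Adj a x then -B.2 x else B.2 x)

/-- The effect of a finite string of local inversions. -/
noncomputable def run (B : SimpleGraph V × (V → ℤˣ)) (w : List V) : SimpleGraph V × (V → ℤˣ) :=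
  w.foldl invert B

/-- The string `w` reverses the colours of `G`: the underlying graph is restored and every colour
is flipped (for every bicoloration). -/
def Reverses (G : SimpleGraph V) (w : List V) : Prop :=
  ∀ β : V → ℤˣ, run (G, β) w = (G, -β)

/-- The colour-reversal number: the least length of a string of local inversions which restores
the graph and flips every colour (`⊤` if there is no such string). -/
noncomputable def cr (G : SimpleGraph V) : ℕ∞ :=
  ⨅ w : {w : List V // Reverses G w}, (w.1.length : ℕ∞)

theorem cr_le_iff (G : SimpleGraph V) (k : ℕ) :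
    cr G ≤ (k : ℕ∞) ↔ ∃ w : List V, w.length ≤ k ∧ Reverses G w := by
  constructor
  · intro h
    by_contra hcon
    push Not at hcon
    have h1 : ((k + 1 : ℕ) : ℕ∞) ≤ cr G := by
      unfold cr
      apply le_iInf
      rintro ⟨w, hw⟩
      have h2 : k < w.length := by
        by_contra h3
        push Not at h3
        exact hcon w h3 hw
      exact_mod_cast h2
    have h2 := h1.trans h
    have h3 : k + 1 ≤ k := by exact_mod_cast h2
    omega
  · rintro ⟨w, hw, hr⟩
    refine (iInf_le _ (⟨w, hr⟩ : {w : List V // Reverses G w})).trans ?_
    exact_mod_cast hw

theorem run_nil (B : SimpleGraph V × (V → ℤˣ)) : run B [] = B := rfl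

theorem run_cons (B : SimpleGraph V × (V → ℤˣ)) (a : V) (w : List V) :
    run B (a :: w) = run (invert B a) w := rfl

theorem run_append (B : SimpleGraph V × (V → ℤˣ)) (w w' : List V) :
    run B (w ++ w') = run (run B w) w' := by
  unfold run
  rw [List.foldl_append]

/-- The graph part of the effect of a string. -/
def gr (G : SimpleGraph V) (w : List V) : SimpleGraph V := w.foldl localComp G

theorem gr_nil (G : SimpleGraph V) : gr G [] = G := rfl

theorem gr_cons (G : SimpleGraph V) (a : V) (w : List V) :
    gr G (a :: w) = gr (localComp G a) w := rfl

theorem gr_append (G : SimpleGraph V) (w w' : List V) :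
    gr G (w ++ w') = gr (gr G w) w' := by
  unfold gr
  rw [List.foldl_append]

theorem run_fst (w : List V) : ∀ (B : SimpleGraph V × (V → ℤˣ)), (run B w).1 = gr B.1 w := by
  induction w with
  | nil => intro B; rfl
  | cons a w ih => intro B; rw [run_cons, ih, gr_cons]; rfl

theorem localComp_adj (G : SimpleGraph V) (a x y : V) :
    (localComp G a).Adj x y ↔ x ≠ y ∧
      ((G.Adj a x ∧ G.Adj a y) ∧ ¬ G.Adj x y ∨ ¬ (G.Adj a x ∧ G.Adj a y) ∧ G.Adj x y) := Iff.rfl

theorem localComp_adj_self (G : SimpleGraph V) (a y : V) :
    (localComp G a).Adj a y ↔ G.Adj a y := by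
  rw [localComp_adj]
  constructor
  · rintro ⟨_, h⟩
    rcases h with ⟨h, _⟩ | ⟨_, h⟩
    · exact absurd h.1 (G.loopless.irrefl a)
    · exact h
  · intro h
    exact ⟨G.ne_of_adj h, Or.inr ⟨fun h' => G.loopless.irrefl a h'.1, h⟩⟩

theorem localComp_localComp (G : SimpleGraph V) (a : V) :
    localComp (localComp G a) a = G := by
  ext x y
  rw [localComp_adj, localComp_adj_self, localComp_adj_self, localComp_adj]
  constructor
  · rintro ⟨hne, h⟩
    tauto
  · intro h
    have hne := G.ne_of_adj h
    refine ⟨hne, ?_⟩
    tauto

open Classical in
/-- The letter that an inversion at `a` contributes at `v`: `[true]` if `v = a` (the vertex itself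
is inverted), `[false]` if `v` is a neighbour of `a` (the vertex is hit), nothing otherwise. -/
noncomputable def letter (G : SimpleGraph V) (a v : V) : List Bool :=
  if a = v then [true] else if G.Adj a v then [false] else []

/-- The word of the vertex `v` along the string `w`. -/
noncomputable def word : SimpleGraph V → List V → V → List Bool
  | _, [], _ => []
  | G, a :: w, v => letter G a v ++ word (localComp G a) w v

theorem word_append (w w' : List V) : ∀ (G : SimpleGraph V) (v : V),
    word G (w ++ w') v = word G w v ++ word (gr G w) w' v := by
  induction w with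
  | nil => intro G v; simp [word, gr]
  | cons a w ih => intro G v; simp [word, ih, gr_cons]

/-- The number of hits of `v`. -/
noncomputable def hits (G : SimpleGraph V) (w : List V) (v : V) : ℕ := (word G w v).count false

theorem letter_count_true [DecidableEq V] (G : SimpleGraph V) (a v : V) :
    (letter G a v).count true = if a = v then 1 else 0 := by
  unfold letter
  split_ifs with h1 h2 <;> simp

/-- The number of inversions at `v` is the number of occurrences of `v` in the string. -/
theorem word_count_true [DecidableEq V] (w : List V) : ∀ (G : SimpleGraph V) (v : V),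
    (word G w v).count true = w.count v := by
  induction w with
  | nil => intro G v; simp [word]
  | cons a w ih =>
    intro G v
    rw [word, List.count_append, ih, letter_count_true, List.count_cons]
    simp only [beq_iff_eq]
    omega

theorem run_snd (w : List V) : ∀ (B : SimpleGraph V × (V → ℤˣ)) (v : V),
    (run B w).2 v = (-1) ^ (hits B.1 w v) * B.2 v := by
  induction w with
  | nil => intro B v; simp [run, hits, word]
  | cons a w ih =>
    intro B v
    rw [run_cons, ih]
    have h1 : hits B.1 (a :: w) v = (letter B.1 a v).count false + hits (invert B a).1 w v := by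
      unfold hits
      rw [word, List.count_append]
      rfl
    rw [h1, pow_add]
    unfold letter
    by_cases hav : a = v
    · subst hav
      have : ¬ B.1.Adj a a := B.1.loopless.irrefl a
      simp [invert, this]
    · by_cases hadj : B.1.Adj a v
      · simp [invert, hav, hadj]
      · simp [invert, hav, hadj]

theorem reverses_iff (G : SimpleGraph V) (w : List V) :
    Reverses G w ↔ gr G w = G ∧ ∀ v, Odd (hits G w v) := by
  constructor
  · intro h
    have h1 := h (fun _ => 1)
    refine ⟨?_, ?_⟩
    · have := run_fst w (G, fun _ => 1)
      rw [h1] at this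
      exact this.symm
    · intro v
      have h2 := run_snd w (G, fun _ => 1) v
      rw [h1] at h2
      simp only [Pi.neg_apply, mul_one] at h2
      by_contra hodd
      rw [Nat.not_odd_iff_even] at hodd
      rw [hodd.neg_one_pow] at h2
      exact absurd h2 (by decide)
  · rintro ⟨h1, h2⟩ β
    apply Prod.ext
    · rw [run_fst]; exact h1
    · funext v
      rw [run_snd, (h2 v).neg_one_pow]
      simp

end Pool.Agent.H40.CR
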