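import Mathlib
import Pool.Agent.H40.CR.Defs

/-!
# Frames

A frame is a `2 × 2` matrix over `F₂`. Along a string of local inversions every vertex `v` carries
a frame, the product of the matrices `t` (inversion at `v`) and `s` (inversion at a neighbour).
The frames map the graph space `{(x, A_G x)}` onto the graph space of the current graph.
-/

namespace Pool.Agent.H40.CR

/-- Matrices `[[p, q], [r, s]]` over `F₂`. -/
structure Fr where
  p : ZMod 2
  q : ZMod 2
  r : ZMod 2
  s : ZMod 2
deriving DecidableEq, Fintype

/-- The identity frame. -/
def Fr.one : Fr := ⟨1, 0, 0, 1⟩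

/-- Left multiplication by `t` (letter `true`) or `s` (letter `false`). -/
def step : Fr → Bool → Fr
  | h, true => ⟨h.p + h.r, h.q + h.s, h.r, h.s⟩
  | h, false => ⟨h.p, h.q, h.r + h.p, h.s + h.q⟩

/-- The frame reached from `h` by a word. -/
def fr (h : Fr) (u : List Bool) : Fr := u.foldl step h

theorem fr_append (h : Fr) (u u' : List Bool) : fr h (u ++ u') = fr (fr h u) u' := by
  unfold fr
  rw [List.foldl_append]

/-- The `x`-component of the image of `(x,z)`. -/
def Fr.fst (h : Fr) (x z : ZMod 2) : ZMod 2 := h.p * x + h.q * z

/-- The `z`-component of the image of `(x,z)`. -/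
def Fr.snd (h : Fr) (x z : ZMod 2) : ZMod 2 := h.r * x + h.s * z

/-- The determinant. -/
def Fr.det (h : Fr) : ZMod 2 := h.p * h.s + h.q * h.r

/-- The sign of an invertible frame as a permutation of the three nonzero vectors. -/
def Fr.sg (h : Fr) : ZMod 2 := h.q + h.r + h.q * h.r * (1 + h.p + h.s)

theorem det_step : ∀ (h : Fr) (b : Bool), (step h b).det = h.det := by decide

theorem sg_step : ∀ (h : Fr) (b : Bool), h.det = 1 → (step h b).sg = h.sg + 1 := by decide

theorem det_fr (u : List Bool) : ∀ h : Fr, (fr h u).det = h.det := by
  induction u with
  | nil => intro h; rfl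
  | cons b u ih => intro h; exact (ih _).trans (det_step _ _)

theorem sg_fr (u : List Bool) : ∀ h : Fr, h.det = 1 →
    (fr h u).sg = h.sg + (u.length : ZMod 2) := by
  induction u with
  | nil => intro h _; simp [fr]
  | cons b u ih =>
    intro h hd
    have h1 := ih (step h b) ((det_step h b).trans hd)
    have h2 := sg_step h b hd
    show (fr (step h b) u).sg = _
    rw [h1, h2, List.length_cons]
    push_cast
    ring

/-! ### The graph space -/

variable {V : Type*} [Fintype V]

open Classical in
/-- The adjacency matrix of `G` over `F₂`. -/
noncomputable def adjm (G : SimpleGraph V) (u v : V) : ZMod 2 := if G.Adj u v then 1 else 0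

omit [Fintype V] in
theorem adjm_comm (G : SimpleGraph V) (u v : V) : adjm G u v = adjm G v u := by
  unfold adjm
  rw [G.adj_comm]

omit [Fintype V] in
theorem adjm_self (G : SimpleGraph V) (u : V) : adjm G u u = 0 := by
  unfold adjm
  rw [if_neg (G.loopless.irrefl u)]

omit [Fintype V] in
theorem adjm_eq_one (G : SimpleGraph V) (u v : V) : adjm G u v = 1 ↔ G.Adj u v := by
  unfold adjm
  split_ifs with h <;> simp [h]

/-- `(x, z)` lies in the graph space of `G`. -/
def InL (G : SimpleGraph V) (x z : V → ZMod 2) : Prop :=
  ∀ v, z v = ∑ u, adjm G v u * x u

open Classical in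
omit [Fintype V] in
/-- Formula for the adjacency matrix of the local complement. -/
theorem adjm_localComp (G : SimpleGraph V) (a u v : V) :
    adjm (localComp G a) u v =
      adjm G u v + adjm G a u * adjm G a v + (if u = v then adjm G a u else 0) := by
  unfold adjm
  rw [localComp_adj]
  by_cases huv : u = v
  · subst huv
    have h1 : ¬ G.Adj u u := G.loopless.irrefl u
    by_cases h2 : G.Adj a u
    · simp [h1, h2]; decide
    · simp [h1, h2]
  · by_cases h1 : G.Adj u v <;> by_cases h2 : G.Adj a u <;> by_cases h3 : G.Adj a v <;>
      simp [huv, h1, h2, h3] <;> decide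

open Classical in
/-- One local complementation maps the graph space into the new graph space. -/
theorem InL_step (G : SimpleGraph V) (a : V) (x z : V → ZMod 2) (h : InL G x z) :
    InL (localComp G a) (fun v => if a = v then x v + z v else x v)
      (fun v => if G.Adj a v then x v + z v else z v) := by
  intro v
  simp only [adjm_localComp]
  have h1 : ∀ u, (if a = u then x u + z u else x u) = x u + (if a = u then z a else 0) := by
    intro u
    split_ifs with h2
    · rw [h2]
    · rw [add_zero]
  simp only [h1]
  have hz : z a = ∑ u, adjm G a u * x u := h a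
  have hv : z v = ∑ u, adjm G v u * x u := h v
  have e1 : ∑ u, (adjm G v u + adjm G a v * adjm G a u + (if v = u then adjm G a v else 0)) *
      (x u + (if a = u then z a else 0)) =
      z v + adjm G a v * z a + adjm G a v * x v + adjm G v a * z a +
        adjm G a v * adjm G a a * z a + (if v = a then adjm G a v * z a else 0) := by
    have e2 : ∀ u, (adjm G v u + adjm G a v * adjm G a u + (if v = u then adjm G a v else 0)) *
      (x u + (if a = u then z a else 0)) =
        adjm G v u * x u + adjm G a v * (adjm G a u * x u) +
        (if v = u then adjm G a v * x u else 0) +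
        (if a = u then (adjm G v u + adjm G a v * adjm G a u +
          (if v = u then adjm G a v else 0)) * z a else 0) := by
      intro u
      split_ifs <;> ring
    simp only [e2, Finset.sum_add_distrib, ← Finset.mul_sum, ← hz, ← hv, Finset.sum_ite_eq,
      Finset.mem_univ, if_true]
    split_ifs <;> ring
  rw [e1, adjm_self, adjm_comm G v a]
  unfold adjm
  by_cases h2 : G.Adj a v
  · have h3 : v ≠ a := (G.ne_of_adj h2).symm
    simp only [h2, if_true, h3, if_false]
    have h4 : (2 : ZMod 2) = 0 := by decide
    linear_combination (-(z a)) * h4
  · simp only [h2, if_false]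
    split_ifs <;> ring

/-- The frames of a string. -/
noncomputable def frames (G : SimpleGraph V) (w : List V) (v : V) : Fr := fr Fr.one (word G w v)

open Classical in
omit [Fintype V] in
theorem fst_letter (G : SimpleGraph V) (a v : V) (h : Fr) (x z : ZMod 2) :
    (fr h (letter G a v)).fst x z = if a = v then h.fst x z + h.snd x z else h.fst x z := by
  unfold letter
  by_cases h1 : a = v
  · simp only [h1, if_true]
    show (step h true).fst x z = _
    simp only [step, Fr.fst, Fr.snd]
    ring
  · by_cases h2 : G.Adj a v
    · simp only [h1, h2, if_true, if_false]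
      show (step h false).fst x z = _
      simp only [step, Fr.fst]
    · simp only [h1, h2, if_false]
      rfl

open Classical in
omit [Fintype V] in
theorem snd_letter (G : SimpleGraph V) (a v : V) (h : Fr) (x z : ZMod 2) :
    (fr h (letter G a v)).snd x z = if G.Adj a v then h.fst x z + h.snd x z else h.snd x z := by
  unfold letter
  by_cases h1 : a = v
  · have h2 : ¬ G.Adj a v := by rw [h1]; exact G.loopless.irrefl v
    simp only [h1, if_true]
    rw [h1] at h2
    simp only [h2, if_false]
    show (step h true).snd x z = _
    simp only [step, Fr.snd]
  · by_cases h2 : G.Adj a v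
    · simp only [h1, h2, if_true, if_false]
      show (step h false).snd x z = _
      simp only [step, Fr.fst, Fr.snd]
      ring
    · simp only [h1, h2, if_false]
      rfl

/-- If the frames `F` map the graph space of `G₀` into that of `G`, then after a local
complementation at `a` the new frames map it into the graph space of `localComp G a`. -/
theorem InL_frames_step (G : SimpleGraph V) (a : V) (F : V → Fr) (x z : V → ZMod 2)
    (h : InL G (fun v => (F v).fst (x v) (z v)) (fun v => (F v).snd (x v) (z v))) :
    InL (localComp G a) (fun v => (fr (F v) (letter G a v)).fst (x v) (z v))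
      (fun v => (fr (F v) (letter G a v)).snd (x v) (z v)) := by
  classical
  have h1 := InL_step G a _ _ h
  simp only [fst_letter, snd_letter]
  exact h1

theorem InL_frames_aux (w : List V) : ∀ (G : SimpleGraph V) (F : V → Fr) (x z : V → ZMod 2),
    InL G (fun v => (F v).fst (x v) (z v)) (fun v => (F v).snd (x v) (z v)) →
    InL (gr G w) (fun v => (fr (F v) (word G w v)).fst (x v) (z v))
      (fun v => (fr (F v) (word G w v)).snd (x v) (z v)) := by
  induction w with
  | nil => intro G F x z h; exact h
  | cons a w ih =>
    intro G F x z h
    have h1 := InL_frames_step G a F x z h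
    have h2 := ih (localComp G a) (fun v => fr (F v) (letter G a v)) x z h1
    rw [gr_cons]
    simp only [word, fr_append]
    exact h2

theorem one_fst (x z : ZMod 2) : Fr.one.fst x z = x := by simp [Fr.one, Fr.fst]

theorem one_snd (x z : ZMod 2) : Fr.one.snd x z = z := by simp [Fr.one, Fr.snd]

/-- The frames of a string map the graph space of `G` into the graph space of the final graph. -/
theorem InL_frames (G : SimpleGraph V) (w : List V) (x z : V → ZMod 2) (h : InL G x z) :
    InL (gr G w) (fun v => (frames G w v).fst (x v) (z v))
      (fun v => (frames G w v).snd (x v) (z v)) := by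
  apply InL_frames_aux
  simpa only [one_fst, one_snd] using h

end Pool.Agent.H40.CR
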