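import Mathlib
import Pool.Agent.H40.CR.Frames

/-!
# Words of a vertex

Elementary facts on words in the letters `t = true`, `s = false` and their products.
-/

namespace Pool.Agent.H40.CR

/-- What can be said about a word with at most one letter `t`. -/
def QQ (h : Fr) (c : ℕ) (e : ZMod 2) : Prop :=
  (c = 0 → (h = ⟨1, 0, 0, 1⟩ ∧ e = 0) ∨ (h = ⟨1, 0, 1, 1⟩ ∧ e = 1)) ∧
  (c = 1 → (h = ⟨1, 1, 0, 1⟩ ∧ e = 0) ∨ (h = ⟨1, 1, 1, 0⟩ ∧ e = 1) ∨
    (h = ⟨0, 1, 1, 1⟩ ∧ e = 1) ∨ (h = ⟨0, 1, 1, 0⟩ ∧ e = 0))

theorem QQ_false (h : Fr) (c : ℕ) (e : ZMod 2) (H : QQ h c e) : QQ (step h false) c (e + 1) := by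
  obtain ⟨h0, h1⟩ := H
  refine ⟨fun hc => ?_, fun hc => ?_⟩
  · rcases h0 hc with ⟨rfl, rfl⟩ | ⟨rfl, rfl⟩ <;> decide
  · rcases h1 hc with ⟨rfl, rfl⟩ | ⟨rfl, rfl⟩ | ⟨rfl, rfl⟩ | ⟨rfl, rfl⟩ <;> decide

theorem QQ_true (h : Fr) (c : ℕ) (e : ZMod 2) (H : QQ h c e) : QQ (step h true) (c + 1) e := by
  obtain ⟨h0, h1⟩ := H
  refine ⟨fun hc => ?_, fun hc => ?_⟩
  · omega
  · rcases h0 (by omega) with ⟨rfl, rfl⟩ | ⟨rfl, rfl⟩ <;> decide

theorem fr_singleton (h : Fr) (b : Bool) : fr h [b] = step h b := rfl

theorem QQ_word (u : List Bool) : QQ (fr Fr.one u) (u.count true) (u.count false : ZMod 2) := by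
  induction u using List.reverseRecOn with
  | nil => refine ⟨fun _ => Or.inl ⟨rfl, by simp⟩, fun hc => by simp at hc⟩
  | append_singleton u b ih =>
    rw [fr_append, List.count_append, List.count_append]
    cases b with
    | true =>
      have := QQ_true _ _ _ ih
      simpa [fr_singleton] using this
    | false =>
      have := QQ_false _ _ _ ih
      simpa [fr_singleton] using this

/-- What can be said about a nonempty word starting with `t` with at most two letters `t`. -/
def RR (h : Fr) (c : ℕ) (e : ZMod 2) : Prop :=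
  (c ≠ 0) ∧
  (c = 1 → (h = ⟨1, 1, 0, 1⟩ ∧ e = 0) ∨ (h = ⟨1, 1, 1, 0⟩ ∧ e = 1)) ∧
  (c = 2 → (h = ⟨1, 0, 0, 1⟩ ∧ e = 0) ∨ (h = ⟨1, 0, 1, 1⟩ ∧ e = 1) ∨
    (h = ⟨0, 1, 1, 0⟩ ∧ e = 1) ∨ (h = ⟨0, 1, 1, 1⟩ ∧ e = 0))

theorem RR_false (h : Fr) (c : ℕ) (e : ZMod 2) (H : RR h c e) : RR (step h false) c (e + 1) := by
  obtain ⟨h0, h1, h2⟩ := H
  refine ⟨h0, fun hc => ?_, fun hc => ?_⟩
  · rcases h1 hc with ⟨rfl, rfl⟩ | ⟨rfl, rfl⟩ <;> decide
  · rcases h2 hc with ⟨rfl, rfl⟩ | ⟨rfl, rfl⟩ | ⟨rfl, rfl⟩ | ⟨rfl, rfl⟩ <;> decide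

theorem RR_true (h : Fr) (c : ℕ) (e : ZMod 2) (H : RR h c e) : RR (step h true) (c + 1) e := by
  obtain ⟨h0, h1, h2⟩ := H
  refine ⟨by omega, fun hc => by omega, fun hc => ?_⟩
  rcases h1 (by omega) with ⟨rfl, rfl⟩ | ⟨rfl, rfl⟩ <;> decide

theorem RR_word (u : List Bool) :
    RR (fr Fr.one (true :: u)) ((true :: u).count true) ((true :: u).count false : ZMod 2) := by
  induction u using List.reverseRecOn with
  | nil =>
    refine ⟨by simp, fun _ => Or.inl ⟨rfl, by simp⟩, fun hc => by simp at hc⟩
  | append_singleton u b ih =>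
    rw [← List.cons_append, fr_append, List.count_append, List.count_append]
    cases b with
    | true =>
      have := RR_true _ _ _ ih
      simpa [fr_singleton] using this
    | false =>
      have := RR_false _ _ _ ih
      simpa [fr_singleton] using this

theorem odd_cast {n : ℕ} (h : Odd n) : (n : ZMod 2) = 1 := by
  obtain ⟨k, rfl⟩ := h
  push_cast
  rw [show (2 : ZMod 2) = 0 by decide]
  simp

/-- If the product of a word fixes the vector `(0,1)`, then the word does not have exactly one
letter `t`. -/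
theorem count_ne_one (u : List Bool) (h : (fr Fr.one u).q = 0) : u.count true ≠ 1 := by
  intro hc
  rcases (QQ_word u).2 hc with ⟨h1, _⟩ | ⟨h1, _⟩ | ⟨h1, _⟩ | ⟨h1, _⟩ <;>
    rw [h1] at h <;> revert h <;> decide

/-- If the product of a word fixes `(1,0)` and the number of letters `s` is odd, then there are at
least two letters `t`. -/
theorem two_le_count (u : List Bool) (hr : (fr Fr.one u).r = 0)
    (hodd : Odd (u.count false)) : 2 ≤ u.count true := by
  by_contra hcon
  have he := odd_cast hodd
  rcases Nat.lt_or_ge (u.count true) 1 with h0 | h0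
  · rcases (QQ_word u).1 (by omega) with ⟨_, h2⟩ | ⟨h1, _⟩
    · rw [he] at h2
      revert h2; decide
    · rw [h1] at hr
      revert hr; decide
  · rcases (QQ_word u).2 (by omega) with ⟨_, h2⟩ | ⟨h1, _⟩ | ⟨h1, _⟩ | ⟨_, h2⟩
    · rw [he] at h2
      revert h2; decide
    · rw [h1] at hr
      revert hr; decide
    · rw [h1] at hr
      revert hr; decide
    · rw [he] at h2
      revert h2; decide

/-- If moreover the word does not start with `s`, then there are at least three letters `t`. -/
theorem three_le_count (u : List Bool) (hr : (fr Fr.one u).r = 0)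
    (hodd : Odd (u.count false)) (hh : u.head? ≠ some false) :
    3 ≤ u.count true := by
  have h2 := two_le_count u hr hodd
  by_contra hcon
  have hc : u.count true = 2 := by omega
  have he := odd_cast hodd
  cases u with
  | nil => simp at hc
  | cons b u =>
    cases b with
    | false => simp at hh
    | true =>
      rcases (RR_word u).2.2 hc with ⟨_, h3⟩ | ⟨h1, _⟩ | ⟨h1, _⟩ | ⟨_, h3⟩
      · rw [he] at h3
        revert h3; decide
      · rw [h1] at hr
        revert hr; decide
      · rw [h1] at hr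
        revert hr; decide
      · rw [he] at h3
        revert h3; decide

/-- If the word of `v` starts with a hit, then some original neighbour of `v` is inverted. -/
theorem exists_nbr_of_head {V : Type*} (w : List V) : ∀ (G : SimpleGraph V) (v : V),
    (word G w v).head? = some false → ∃ a ∈ w, G.Adj a v := by
  induction w with
  | nil => intro G v h; simp [word] at h
  | cons a w ih =>
    intro G v h
    by_cases h1 : a = v
    · simp [word, letter, h1] at h
    · by_cases h2 : G.Adj a v
      · exact ⟨a, by simp, h2⟩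
      · simp only [word, letter, h1, h2, if_false, List.nil_append] at h
        obtain ⟨b, hb, hadj⟩ := ih _ _ h
        refine ⟨b, List.mem_cons_of_mem _ hb, ?_⟩
        rw [localComp_adj] at hadj
        tauto

/-- The equations satisfied by the frames of a string restoring the graph. -/
theorem frames_eq {V : Type*} [Fintype V] [DecidableEq V] (G : SimpleGraph V) (w : List V)
    (hG : gr G w = G) (i j : V) :
    (frames G w j).r * (if j = i then 1 else 0) + (frames G w j).s * adjm G j i =
      adjm G j i * (frames G w i).p + ∑ u, (frames G w u).q * (adjm G j u * adjm G u i) := by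
  have h0 : InL G (fun v => if v = i then 1 else 0) (fun v => adjm G v i) := by
    intro v
    simp
  have h1 := InL_frames G w _ _ h0
  rw [hG] at h1
  have h2 := h1 j
  simp only [Fr.fst, Fr.snd] at h2
  rw [h2]
  simp only [mul_add, Finset.sum_add_distrib]
  congr 1
  · simp
  · apply Finset.sum_congr rfl
    intro u _
    ring

/-! ### Local lower bounds -/

section Local

variable {V : Type*} [Fintype V] [DecidableEq V] {G : SimpleGraph V} {w : List V}

/-- If `v` is the unique common neighbour of two nonadjacent vertices, then the `q`-entry of its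
frame vanishes. -/
theorem q_eq_zero (hG : gr G w = G) {i j v : V} (hij : i ≠ j) (hadj : ¬ G.Adj i j)
    (hv : ∀ u, G.Adj j u ∧ G.Adj u i ↔ u = v) : (frames G w v).q = 0 := by
  have h := frames_eq G w hG i j
  have h1 : adjm G j i = 0 := by
    unfold adjm
    rw [if_neg]
    intro h'
    exact hadj h'.symm
  rw [if_neg (Ne.symm hij), h1] at h
  simp only [mul_zero, zero_mul, add_zero, zero_add] at h
  rw [Finset.sum_eq_single v] at h
  · have h2 := (hv v).2 rfl
    rw [(adjm_eq_one G j v).2 h2.1, (adjm_eq_one G v i).2 h2.2] at h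
    simpa using h.symm
  · intro u _ hu
    have h3 : ¬ (G.Adj j u ∧ G.Adj u i) := fun h' => hu ((hv u).1 h')
    unfold adjm
    by_cases h4 : G.Adj j u
    · have h5 : ¬ G.Adj u i := fun h' => h3 ⟨h4, h'⟩
      simp [h5]
    · simp [h4]
  · intro h'
    exact absurd (Finset.mem_univ v) h'

/-- If the `q`-entries vanish at all neighbours of `v`, then the `r`-entry vanishes at `v`. -/
theorem r_eq_zero (hG : gr G w = G) {v : V} (hv : ∀ u, G.Adj v u → (frames G w u).q = 0) :
    (frames G w v).r = 0 := by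
  have h := frames_eq G w hG v v
  rw [adjm_self] at h
  simp only [mul_zero, zero_mul, add_zero, zero_add, if_true, mul_one] at h
  rw [h]
  apply Finset.sum_eq_zero
  intro u _
  by_cases h1 : G.Adj v u
  · rw [hv u h1, zero_mul]
  · unfold adjm
    simp [h1]

theorem row_count_ne_one (hw : Reverses G w) {i j v : V} (hij : i ≠ j) (hadj : ¬ G.Adj i j)
    (hv : ∀ u, G.Adj j u ∧ G.Adj u i ↔ u = v) : w.count v ≠ 1 := by
  rw [reverses_iff] at hw
  have h := q_eq_zero hw.1 hij hadj hv
  have h2 := count_ne_one (word G w v) h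
  rwa [word_count_true] at h2

theorem two_le_count_of_r (hw : Reverses G w) {v : V} (hr : (frames G w v).r = 0) :
    2 ≤ w.count v := by
  rw [reverses_iff] at hw
  have h2 := two_le_count (word G w v) hr (hw.2 v)
  rwa [word_count_true] at h2

theorem three_le_count_of_r (hw : Reverses G w) {v : V} (hr : (frames G w v).r = 0)
    (hn : ∀ a ∈ w, ¬ G.Adj a v) : 3 ≤ w.count v := by
  rw [reverses_iff] at hw
  have h2 := three_le_count (word G w v) hr (hw.2 v) (by
    intro h
    obtain ⟨a, ha, hadj⟩ := exists_nbr_of_head w G v h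
    exact hn a ha hadj)
  rwa [word_count_true] at h2

end Local

end Pool.Agent.H40.CR
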