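import Mathlib
import Pool.Agent.H40.CR.Words

/-!
# Walks on Eulerian vectors

An axis vector assigns to every vertex a nonzero vector of `F₂²`. It is Eulerian (for `G`) if no
nonzero element of the graph space of `G` has all its components in `{0, axis}`. Local inversions
correspond to changing one coordinate of an Eulerian vector.
-/

namespace Pool.Agent.H40.CR

variable {V : Type*} [Fintype V]

/-- `ax` is Eulerian for `G`. -/
def Euler (G : SimpleGraph V) (ax : V → ZMod 2 × ZMod 2) : Prop :=
  ∀ x z : V → ZMod 2, InL G x z → (∀ v, (x v, z v) = (0, 0) ∨ (x v, z v) = ax v) → ∀ v, x v = 0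

/-- Walks on Eulerian vectors changing the coordinates listed in the string. -/
inductive Walk [DecidableEq V] (G : SimpleGraph V) :
    (V → ZMod 2 × ZMod 2) → List V → (V → ZMod 2 × ZMod 2) → Prop
  | nil (ax) : Walk G ax [] ax
  | cons (ax) (v : V) (c : ZMod 2 × ZMod 2) (w : List V) (ax' : V → ZMod 2 × ZMod 2)
      (h0 : c ≠ (0, 0)) (h1 : c ≠ ax v) (h2 : Euler G (Function.update ax v c))
      (h3 : Walk G (Function.update ax v c) w ax') : Walk G ax (v :: w) ax'

theorem Walk.append [DecidableEq V] {G : SimpleGraph V} {ax ax' ax'' : V → ZMod 2 × ZMod 2}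
    {w w' : List V} (h : Walk G ax w ax') (h' : Walk G ax' w' ax'') :
    Walk G ax (w ++ w') ax'' := by
  induction h with
  | nil ax => exact h'
  | cons ax v c w ax' h0 h1 h2 _ ih => exact Walk.cons ax v c _ _ h0 h1 h2 (ih h')

theorem Walk.single [DecidableEq V] {G : SimpleGraph V} {ax ax' : V → ZMod 2 × ZMod 2} (v : V)
    (h0 : ax' v ≠ (0, 0)) (h1 : ax' v ≠ ax v) (h2 : Euler G ax')
    (h3 : ∀ u, u ≠ v → ax' u = ax u) : Walk G ax [v] ax' := by
  have h4 : Function.update ax v (ax' v) = ax' := by
    funext u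
    by_cases hu : u = v
    · subst hu; simp
    · rw [Function.update_of_ne hu, h3 u hu]
  refine Walk.cons ax v (ax' v) [] ax' h0 h1 ?_ ?_
  · rw [h4]; exact h2
  · rw [h4]; exact Walk.nil _

/-- The inverse of a frame of determinant one. -/
def Fr.inv (h : Fr) : Fr := ⟨h.s, h.q, h.r, h.p⟩

theorem inv_fst : ∀ (h : Fr) (x z : ZMod 2), h.det = 1 →
    h.fst (h.inv.fst x z) (h.inv.snd x z) = x := by decide

theorem inv_snd : ∀ (h : Fr) (x z : ZMod 2), h.det = 1 →
    h.snd (h.inv.fst x z) (h.inv.snd x z) = z := by decide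

omit [Fintype V] in
theorem letter_localComp (G : SimpleGraph V) (a v : V) :
    letter (localComp G a) a v = letter G a v := by
  have h := localComp_adj_self G a v
  by_cases h1 : a = v
  · simp [letter, h1]
  · by_cases h2 : G.Adj a v
    · simp [letter, h1, h2, h.2 h2]
    · have h3 : ¬ (localComp G a).Adj a v := fun h' => h2 (h.1 h')
      simp [letter, h1, h2, h3]

theorem step_step : ∀ (h : Fr) (b : Bool), step (step h b) b = h := by decide

omit [Fintype V] in
theorem fr_letter_letter (G : SimpleGraph V) (a v : V) (h : Fr) :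
    fr (fr h (letter G a v)) (letter G a v) = h := by
  unfold letter
  by_cases h1 : a = v
  · simp only [h1, if_true, fr_singleton, step_step]
  · by_cases h2 : G.Adj a v
    · simp only [h1, h2, if_false, if_true, fr_singleton, step_step]
    · simp only [h1, h2, if_false]
      rfl

/-- `F` presents the graph `H` for the graph space of `G`. -/
def Presents (G H : SimpleGraph V) (F : V → Fr) : Prop :=
  ∀ x z : V → ZMod 2, InL G x z ↔
    InL H (fun v => (F v).fst (x v) (z v)) (fun v => (F v).snd (x v) (z v))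

theorem Presents.refl (G : SimpleGraph V) : Presents G G (fun _ => Fr.one) := by
  intro x z
  simp only [one_fst, one_snd]

theorem Presents.step {G H : SimpleGraph V} {F : V → Fr} (h : Presents G H F) (a : V) :
    Presents G (localComp H a) (fun v => fr (F v) (letter H a v)) := by
  intro x z
  rw [h x z]
  constructor
  · intro h1
    exact InL_frames_step H a F x z h1
  · intro h1
    have h2 := InL_frames_step (localComp H a) a (fun v => fr (F v) (letter H a v)) x z h1
    simp only [letter_localComp, fr_letter_letter, localComp_localComp] at h2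
    exact h2

theorem inL_row (H : SimpleGraph V) [DecidableEq V] (i : V) :
    InL H (fun v => if v = i then 1 else 0) (fun v => adjm H v i) := by
  intro v
  simp

theorem eq_Y_of : ∀ (h : Fr) (a c : ZMod 2 × ZMod 2), h.det = 1 →
    h.fst a.1 a.2 = 0 → h.snd a.1 a.2 = 1 → c ≠ (0, 0) → c ≠ a →
    ¬ (h.fst c.1 c.2 = 1 ∧ h.snd c.1 c.2 = 0) → (h.fst c.1 c.2 = 1 ∧ h.snd c.1 c.2 = 1) := by
  decide

theorem inv_X_of : ∀ (h : Fr) (c : ZMod 2 × ZMod 2), h.det = 1 →
    (h.fst c.1 c.2 = 1 ∧ h.snd c.1 c.2 = 0) → (h.inv.fst 1 0, h.inv.snd 1 0) = c := by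
  decide

theorem inv_Z_of : ∀ (h : Fr) (a : ZMod 2 × ZMod 2) (b : ZMod 2), h.det = 1 →
    h.fst a.1 a.2 = 0 → h.snd a.1 a.2 = 1 →
    (h.inv.fst 0 b = 0 ∧ h.inv.snd 0 b = 0) ∨ (h.inv.fst 0 b = a.1 ∧ h.inv.snd 0 b = a.2) := by
  decide

/-- Following a walk, the frames always carry the current axis vector to `Z = (0,1)`. -/
theorem walk_frames [DecidableEq V] {G : SimpleGraph V} {ax ax' : V → ZMod 2 × ZMod 2}
    {w : List V} (hw : Walk G ax w ax') : ∀ (H : SimpleGraph V) (F : V → Fr),
    Presents G H F → (∀ v, (F v).det = 1) →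
    (∀ v, (F v).fst (ax v).1 (ax v).2 = 0 ∧ (F v).snd (ax v).1 (ax v).2 = 1) →
    Presents G (gr H w) (fun v => fr (F v) (word H w v)) ∧
    (∀ v, (fr (F v) (word H w v)).fst (ax' v).1 (ax' v).2 = 0 ∧
      (fr (F v) (word H w v)).snd (ax' v).1 (ax' v).2 = 1) := by
  induction hw with
  | nil ax => intro H F hP _ hZ; exact ⟨hP, hZ⟩
  | cons ax v c w ax' h0 h1 h2 _ ih =>
    intro H F hP hd hZ
    have key : (F v).fst c.1 c.2 = 1 ∧ (F v).snd c.1 c.2 = 1 := by
      apply eq_Y_of (F v) (ax v) c (hd v) (hZ v).1 (hZ v).2 h0 h1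
      intro hX
      -- the row of `v` in `H`, pulled back to `G`
      have h3 : InL G
          (fun u => (F u).inv.fst (if u = v then 1 else 0) (adjm H u v))
          (fun u => (F u).inv.snd (if u = v then 1 else 0) (adjm H u v)) := by
        rw [hP]
        simp only [inv_fst _ _ _ (hd _), inv_snd _ _ _ (hd _)]
        exact inL_row H v
      have h4 := h2 _ _ h3 (by
        intro u
        by_cases hu : u = v
        · subst hu
          right
          rw [Function.update_self]
          simp only [if_true, adjm_self]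
          exact inv_X_of (F u) c (hd u) hX
        · rw [Function.update_of_ne hu]
          simp only [hu, if_false]
          rcases inv_Z_of (F u) (ax u) (adjm H u v) (hd u) (hZ u).1 (hZ u).2 with h7 | h7
          · left; rw [h7.1, h7.2]
          · right; rw [h7.1, h7.2])
      have h5 : ∀ u, (F u).inv.snd (if u = v then 1 else 0) (adjm H u v) = 0 := by
        intro u
        refine (h3 u).trans ?_
        apply Finset.sum_eq_zero
        intro t _
        simp only [h4 t, mul_zero]
      have h7 := h4 v
      have h8 := h5 v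
      simp only [if_true, adjm_self] at h7 h8
      have h9 := inv_X_of (F v) c (hd v) hX
      rw [h7, h8] at h9
      exact h0 h9.symm
    have hstep := hP.step v
    have h6 := ih (localComp H v) (fun u => fr (F u) (letter H v u)) hstep
      (fun u => by rw [det_fr]; exact hd u)
      (by
        intro u
        rw [fst_letter, snd_letter]
        by_cases hu : u = v
        · subst hu
          rw [Function.update_self, key.1, key.2]
          simp
          decide
        · rw [Function.update_of_ne hu, (hZ u).1, (hZ u).2]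
          have : ¬ v = u := fun h => hu h.symm
          simp only [this, if_false]
          split_ifs <;> decide)
    rw [gr_cons]
    simp only [word, fr_append]
    exact h6

theorem agree_aux : ∀ (h k : Fr) (a : ZMod 2 × ZMod 2), h.det = 1 → k.det = 1 →
    h.fst a.1 a.2 = 0 → h.snd a.1 a.2 = 1 → k.fst a.1 a.2 = 0 → k.snd a.1 a.2 = 1 →
    (∀ b : ZMod 2, h.fst (k.inv.fst 0 b) (k.inv.snd 0 b) = 0 ∧
      h.snd (k.inv.fst 0 b) (k.inv.snd 0 b) = b) ∧
    h.fst (k.inv.fst 1 0) (k.inv.snd 1 0) = 1 ∧
    (h.snd (k.inv.fst 1 0) (k.inv.snd 1 0) = 0 → h = k) := by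
  decide

/-- Two presentations with the same axis vector agree. -/
theorem presents_unique [DecidableEq V] {G H K : SimpleGraph V} {F F' : V → Fr}
    (h : Presents G H F) (h' : Presents G K F') (hd : ∀ v, (F v).det = 1)
    (hd' : ∀ v, (F' v).det = 1) (ax : V → ZMod 2 × ZMod 2)
    (hZ : ∀ v, (F v).fst (ax v).1 (ax v).2 = 0 ∧ (F v).snd (ax v).1 (ax v).2 = 1)
    (hZ' : ∀ v, (F' v).fst (ax v).1 (ax v).2 = 0 ∧ (F' v).snd (ax v).1 (ax v).2 = 1) :
    H = K ∧ F = F' := by
  have key : ∀ i v, (F v).snd ((F' v).inv.fst (if v = i then 1 else 0) (adjm K v i))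
      ((F' v).inv.snd (if v = i then 1 else 0) (adjm K v i)) = adjm H v i := by
    intro i v
    have h1 : InL G (fun u => (F' u).inv.fst (if u = i then 1 else 0) (adjm K u i))
        (fun u => (F' u).inv.snd (if u = i then 1 else 0) (adjm K u i)) := by
      rw [h']
      simp only [inv_fst _ _ _ (hd' _), inv_snd _ _ _ (hd' _)]
      exact inL_row K i
    have h2 := (h _ _).1 h1 v
    simp only at h2
    rw [h2]
    have h3 : ∀ u, (F u).fst ((F' u).inv.fst (if u = i then 1 else 0) (adjm K u i))
        ((F' u).inv.snd (if u = i then 1 else 0) (adjm K u i)) = if u = i then 1 else 0 := by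
      intro u
      obtain ⟨a1, a2, a3⟩ := agree_aux (F u) (F' u) (ax u) (hd u) (hd' u) (hZ u).1 (hZ u).2
        (hZ' u).1 (hZ' u).2
      by_cases hu : u = i
      · subst hu
        simp only [if_true, adjm_self]
        exact a2
      · simp only [hu, if_false]
        exact (a1 _).1
    simp only [h3]
    simp
  have hF : ∀ v, F v = F' v := by
    intro v
    obtain ⟨a1, a2, a3⟩ := agree_aux (F v) (F' v) (ax v) (hd v) (hd' v) (hZ v).1 (hZ v).2
      (hZ' v).1 (hZ' v).2
    have h1 := key v v
    simp only [if_true, adjm_self] at h1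
    exact a3 h1
  refine ⟨?_, funext hF⟩
  ext v i
  rw [← adjm_eq_one, ← adjm_eq_one]
  by_cases hvi : v = i
  · subst hvi
    rw [adjm_self, adjm_self]
  · have h1 := key i v
    obtain ⟨a1, a2, a3⟩ := agree_aux (F v) (F' v) (ax v) (hd v) (hd' v) (hZ v).1 (hZ v).2
      (hZ' v).1 (hZ' v).2
    simp only [hvi, if_false, (a1 _).2] at h1
    rw [h1]

/-- Sufficient condition for a colour reversal: a walk from the constant vector `Z` to a vector
`ax'` which is also reached by a symmetry `F'` of the graph space all of whose frames are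
transpositions, every vertex being used an even number of times. -/
theorem reverses_of_walk [DecidableEq V] {G : SimpleGraph V} {ax' : V → ZMod 2 × ZMod 2}
    {w : List V} (hw : Walk G (fun _ => (0, 1)) w ax') (F' : V → Fr) (h' : Presents G G F')
    (hd' : ∀ v, (F' v).det = 1) (hsg : ∀ v, (F' v).sg = 1)
    (hZ' : ∀ v, (F' v).fst (ax' v).1 (ax' v).2 = 0 ∧ (F' v).snd (ax' v).1 (ax' v).2 = 1)
    (heven : ∀ v, Even (w.count v)) : Reverses G w := by
  obtain ⟨h1, h2⟩ := walk_frames hw G (fun _ => Fr.one) (Presents.refl G) (fun _ => by decide)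
    (fun v => by simp [one_fst, one_snd])
  have hdet : ∀ v, (fr Fr.one (word G w v)).det = 1 := by
    intro v
    rw [det_fr]
    decide
  obtain ⟨h3, h4⟩ := presents_unique h1 h' hdet hd' ax' h2 hZ'
  rw [reverses_iff]
  refine ⟨h3, ?_⟩
  intro v
  have h5 := sg_fr (word G w v) Fr.one (by decide)
  have h6 : fr Fr.one (word G w v) = F' v := congrFun h4 v
  rw [h6, hsg v, ← List.count_true_add_count_false] at h5
  have h7 : (word G w v).count true = w.count v := word_count_true w G v
  rw [h7] at h5
  obtain ⟨n, hn⟩ := heven v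
  rw [hn] at h5
  unfold hits
  by_contra hodd
  rw [Nat.not_odd_iff_even] at hodd
  obtain ⟨k, hk⟩ := hodd
  rw [hk] at h5
  have h8 : ((n + n + (k + k) : ℕ) : ZMod 2) = 0 := by
    push_cast
    have h9 : ∀ a : ZMod 2, a + a = 0 := by decide
    rw [h9, h9, add_zero]
  rw [h8] at h5
  revert h5
  decide

end Pool.Agent.H40.CR
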