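import Mathlib
import Pool.Agent.H40.CR.Walk

/-!
# Bipartite graphs with orthonormal rows

Eulerian vectors and walks in bipartite graphs whose first side contains two special vertices
`f = inl false`, `g = inl true` and vertices `inr u`.
-/

namespace Pool.Agent.H40.CR

section General

variable {R C : Type*}

/-- The bipartite graph with sides `R` and `C` and incidence relation `inc`. -/
def bip (inc : R → C → Prop) : SimpleGraph (R ⊕ C) where
  Adj a b := match a, b with
    | Sum.inl r, Sum.inr c => inc r c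
    | Sum.inr c, Sum.inl r => inc r c
    | _, _ => False
  symm := ⟨by
    rintro (a | a) (b | b) h <;> exact h⟩
  loopless := ⟨by rintro (a | a) h <;> exact h⟩

open Classical in
/-- The incidence matrix over `F₂`. -/
noncomputable def im (inc : R → C → Prop) (r : R) (c : C) : ZMod 2 := if inc r c then 1 else 0

theorem adjm_bip_lr (inc : R → C → Prop) (r : R) (c : C) :
    adjm (bip inc) (Sum.inl r) (Sum.inr c) = im inc r c := rfl

theorem adjm_bip_rl (inc : R → C → Prop) (r : R) (c : C) :
    adjm (bip inc) (Sum.inr c) (Sum.inl r) = im inc r c := rfl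

theorem adjm_bip_ll (inc : R → C → Prop) (r r' : R) :
    adjm (bip inc) (Sum.inl r) (Sum.inl r') = 0 := by
  unfold adjm
  rw [if_neg]
  intro h
  exact h

theorem adjm_bip_rr (inc : R → C → Prop) (c c' : C) :
    adjm (bip inc) (Sum.inr c) (Sum.inr c') = 0 := by
  unfold adjm
  rw [if_neg]
  intro h
  exact h

variable [Fintype R] [Fintype C]

theorem inL_bip (inc : R → C → Prop) (x z : R ⊕ C → ZMod 2) :
    InL (bip inc) x z ↔
      (∀ r, z (Sum.inl r) = ∑ c, im inc r c * x (Sum.inr c)) ∧
      (∀ c, z (Sum.inr c) = ∑ r, im inc r c * x (Sum.inl r)) := by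
  unfold InL
  constructor
  · intro h
    refine ⟨fun r => ?_, fun c => ?_⟩
    · rw [h, Fintype.sum_sum_type]
      simp [adjm_bip_lr, adjm_bip_ll]
    · rw [h, Fintype.sum_sum_type]
      simp [adjm_bip_rl, adjm_bip_rr]
  · rintro ⟨h1, h2⟩ (r | c)
    · rw [h1, Fintype.sum_sum_type]
      simp [adjm_bip_lr, adjm_bip_ll]
    · rw [h2, Fintype.sum_sum_type]
      simp [adjm_bip_rl, adjm_bip_rr]

/-- The symmetry: `s` on the rows, `t` on the columns. -/
def sym : R ⊕ C → Fr
  | Sum.inl _ => ⟨1, 0, 1, 1⟩
  | Sum.inr _ => ⟨1, 1, 0, 1⟩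

theorem det_sym (v : R ⊕ C) : (sym v).det = 1 := by
  rcases v with v | v
  · show Fr.det ⟨1, 0, 1, 1⟩ = 1; decide
  · show Fr.det ⟨1, 1, 0, 1⟩ = 1; decide

theorem sg_sym (v : R ⊕ C) : (sym v).sg = 1 := by
  rcases v with v | v
  · show Fr.sg ⟨1, 0, 1, 1⟩ = 1; decide
  · show Fr.sg ⟨1, 1, 0, 1⟩ = 1; decide

/-- If the rows are orthonormal then `sym` is a symmetry of the graph space. -/
theorem presents_sym (inc : R → C → Prop) [DecidableEq R]
    (horth : ∀ r r', ∑ c, im inc r c * im inc r' c = if r = r' then 1 else 0) :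
    Presents (bip inc) (bip inc) (sym : R ⊕ C → Fr) := by
  have h2 : ∀ a b : ZMod 2, a + b + b = a := by decide
  -- the key computation
  have key : ∀ x z : R ⊕ C → ZMod 2,
      (∀ c, z (Sum.inr c) = ∑ r, im inc r c * x (Sum.inl r)) →
      ∀ r, ∑ c, im inc r c * (x (Sum.inr c) + z (Sum.inr c)) =
        (∑ c, im inc r c * x (Sum.inr c)) + x (Sum.inl r) := by
    intro x z hz r
    simp only [mul_add, Finset.sum_add_distrib]
    congr 1
    have h3 : ∀ c, im inc r c * z (Sum.inr c) =
        ∑ r', (im inc r c * im inc r' c) * x (Sum.inl r') := by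
      intro c
      rw [hz, Finset.mul_sum]
      apply Finset.sum_congr rfl
      intro r' _
      ring
    simp only [h3]
    rw [Finset.sum_comm]
    simp only [← Finset.sum_mul, horth]
    simp
  intro x z
  rw [inL_bip, inL_bip]
  simp only [sym, Fr.fst, Fr.snd, one_mul, zero_mul, add_zero, zero_add]
  constructor
  · rintro ⟨h3, h4⟩
    refine ⟨fun r => ?_, h4⟩
    rw [key x z h4 r, ← h3 r, add_comm]
  · rintro ⟨h3, h4⟩
    refine ⟨fun r => ?_, h4⟩
    have h5 := h3 r
    rw [key x z h4 r] at h5
    have h6 : ∀ a b c : ZMod 2, a + b = c + a → b = c := by decide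
    exact h6 _ _ _ h5

/-- The axis vector with values `rv` on the rows, `X = (1,0)` on the columns in `M`, `Y = (1,1)`
on the columns in `P`, `Z = (0,1)` on the other columns. -/
def axv [DecidableEq C] (rv : R → ZMod 2 × ZMod 2) (M P : Finset C) : R ⊕ C → ZMod 2 × ZMod 2
  | Sum.inl r => rv r
  | Sum.inr c => if c ∈ M then (1, 0) else if c ∈ P then (1, 1) else (0, 1)

/-- The form on the rows given by the processed columns. -/
noncomputable def kk (inc : R → C → Prop) (P : Finset C) (r r' : R) : ZMod 2 :=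
  ∑ c ∈ P, im inc r c * im inc r' c

omit [Fintype R] [Fintype C] in
theorem kk_insert [DecidableEq C] (inc : R → C → Prop) (P : Finset C) (c : C) (hc : c ∉ P)
    (r r' : R) : kk inc (insert c P) r r' = im inc r c * im inc r' c + kk inc P r r' := by
  unfold kk
  rw [Finset.sum_insert hc]

omit [Fintype R] [Fintype C] in
theorem kk_comm (inc : R → C → Prop) (P : Finset C) (r r' : R) :
    kk inc P r r' = kk inc P r' r := by
  unfold kk
  apply Finset.sum_congr rfl
  intro c _
  ring

/-- The reduced criterion for an axis vector to be Eulerian. -/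
theorem euler_axv [DecidableEq C] (inc : R → C → Prop) (rv : R → ZMod 2 × ZMod 2)
    (M P : Finset C) (hMP : Disjoint M P)
    (H : ∀ (x : R → ZMod 2) (y : C → ZMod 2),
      (∀ r, (x r, (∑ r', kk inc P r r' * x r') + ∑ c ∈ M, im inc r c * y c) = (0, 0) ∨
        (x r, (∑ r', kk inc P r r' * x r') + ∑ c ∈ M, im inc r c * y c) = rv r) →
      (∀ c ∈ M, ∑ r, im inc r c * x r = 0) →
      (∀ r, x r = 0) ∧ (∀ c ∈ M, y c = 0)) :
    Euler (bip inc) (axv rv M P) := by
  intro x z hL hax
  rw [inL_bip] at hL
  obtain ⟨hr, hc⟩ := hL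
  -- columns
  have hM : ∀ c ∈ M, z (Sum.inr c) = 0 := by
    intro c hcM
    have h1 := hax (Sum.inr c)
    simp only [axv, hcM, if_true, Prod.mk.injEq] at h1
    rcases h1 with h1 | h1 <;> exact h1.2
  have hP : ∀ c ∈ P, x (Sum.inr c) = z (Sum.inr c) := by
    intro c hcP
    have h0 : c ∉ M := fun h => (Finset.disjoint_left.1 hMP) h hcP
    have h1 := hax (Sum.inr c)
    simp only [axv, h0, hcP, if_true, if_false, Prod.mk.injEq] at h1
    rcases h1 with h1 | h1 <;> rw [h1.1, h1.2]
  have hO : ∀ c, c ∉ M → c ∉ P → x (Sum.inr c) = 0 := by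
    intro c h0 h00
    have h1 := hax (Sum.inr c)
    simp only [axv, h0, h00, if_false, Prod.mk.injEq] at h1
    rcases h1 with h1 | h1 <;> exact h1.1
  have hz : ∀ r, z (Sum.inl r) =
      (∑ r', kk inc P r r' * x (Sum.inl r')) + ∑ c ∈ M, im inc r c * x (Sum.inr c) := by
    intro r
    rw [hr r]
    have h1 : ∑ c, im inc r c * x (Sum.inr c) =
        ∑ c ∈ P ∪ M, im inc r c * x (Sum.inr c) := by
      symm
      apply Finset.sum_subset (Finset.subset_univ _)
      intro c _ hcc
      rw [Finset.mem_union] at hcc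
      push Not at hcc
      rw [hO c hcc.2 hcc.1, mul_zero]
    rw [h1, Finset.sum_union hMP.symm]
    congr 1
    have h2 : ∀ c ∈ P, im inc r c * x (Sum.inr c) =
        ∑ r', (im inc r c * im inc r' c) * x (Sum.inl r') := by
      intro c hcP
      rw [hP c hcP, hc c, Finset.mul_sum]
      apply Finset.sum_congr rfl
      intro r' _
      ring
    rw [Finset.sum_congr rfl h2, Finset.sum_comm]
    apply Finset.sum_congr rfl
    intro r' _
    rw [← Finset.sum_mul]
    rfl
  have h3 := H (fun r => x (Sum.inl r)) (fun c => x (Sum.inr c)) (by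
    intro r
    have h1 := hax (Sum.inl r)
    simp only [axv] at h1
    rw [hz r] at h1
    exact h1) (by
    intro c hcM
    have h1 := hM c hcM
    rw [hc c] at h1
    exact h1)
  obtain ⟨h4, h5⟩ := h3
  rintro (r | c)
  · exact h4 r
  · by_cases h0 : c ∈ M
    · exact h5 c h0
    · by_cases h00 : c ∈ P
      · rw [hP c h00, hc c]
        apply Finset.sum_eq_zero
        intro r _
        rw [h4 r, mul_zero]
      · exact hO c h0 h00

end General

/-! ### Two special rows and at most one further active row -/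

/-- The nondegeneracy check. `vf, vg, va` are the axis values of the three rows `f`, `g`, `a`,
`k..` is the form of the processed columns on these rows, `fᵢ, gᵢ, aᵢ` is the pattern of the
`i`-th column in middle position and `bᵢ` tells whether it is present. -/
def chk (vf vg va : ZMod 2 × ZMod 2) (kff kfg kgg kfa kga kaa : ZMod 2)
    (f1 g1 a1 : ZMod 2) (b1 : Bool) (f2 g2 a2 : ZMod 2) (b2 : Bool) : Prop :=
  ∀ xf xg xa y1 y2 : ZMod 2,
    ((xf = 0 ∧ kff * xf + kfg * xg + kfa * xa + (f1 * y1 + f2 * y2) = 0) ∨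
      (xf = vf.1 ∧ kff * xf + kfg * xg + kfa * xa + (f1 * y1 + f2 * y2) = vf.2)) →
    ((xg = 0 ∧ kfg * xf + kgg * xg + kga * xa + (g1 * y1 + g2 * y2) = 0) ∨
      (xg = vg.1 ∧ kfg * xf + kgg * xg + kga * xa + (g1 * y1 + g2 * y2) = vg.2)) →
    ((xa = 0 ∧ kfa * xf + kga * xg + kaa * xa + (a1 * y1 + a2 * y2) = 0) ∨
      (xa = va.1 ∧ kfa * xf + kga * xg + kaa * xa + (a1 * y1 + a2 * y2) = va.2)) →
    (bif b1 then f1 * xf + g1 * xg + a1 * xa else y1) = 0 →
    (bif b2 then f2 * xf + g2 * xg + a2 * xa else y2) = 0 →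
    xf = 0 ∧ xg = 0 ∧ xa = 0 ∧ y1 = 0 ∧ y2 = 0

instance (vf vg va : ZMod 2 × ZMod 2) (kff kfg kgg kfa kga kaa : ZMod 2)
    (f1 g1 a1 : ZMod 2) (b1 : Bool) (f2 g2 a2 : ZMod 2) (b2 : Bool) :
    Decidable (chk vf vg va kff kfg kgg kfa kga kaa f1 g1 a1 b1 f2 g2 a2 b2) := by
  unfold chk; infer_instance

/-- A sanity test: the state reached after the start of the reversal string. -/
example : chk (1, 1) (1, 0) (0, 1) 1 1 1 0 0 0 0 0 0 false 0 0 0 false := by decide

section Two

variable {U C : Type*} [Fintype U] [DecidableEq U] [Fintype C] [DecidableEq C]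

/-- Value at the active row (zero if there is none). -/
def aval (act : Option U) (φ : U → ZMod 2) : ZMod 2 :=
  match act with
  | none => 0
  | some a => φ a

/-- Axis values of the rows. -/
def rvs (vf vg : ZMod 2 × ZMod 2) (act : Option U) : Bool ⊕ U → ZMod 2 × ZMod 2
  | Sum.inl false => vf
  | Sum.inl true => vg
  | Sum.inr u => if act = some u then (1, 0) else (0, 1)

/-- Axis value of the third row in the check. -/
def vact (act : Option U) : ZMod 2 × ZMod 2 :=
  match act with
  | none => (0, 1)
  | some _ => (1, 0)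

/-- The middle set. -/
def mid (b1 : Bool) (c1 : C) (b2 : Bool) (c2 : C) : Finset C :=
  (bif b1 then {c1} else ∅) ∪ (bif b2 then {c2} else ∅)

/-- The check for the current state. -/
def chkAt (inc : Bool ⊕ U → C → Prop) (vf vg : ZMod 2 × ZMod 2) (act : Option U) (P : Finset C)
    (b1 : Bool) (c1 : C) (b2 : Bool) (c2 : C) : Prop :=
  chk vf vg (vact act)
    (kk inc P (Sum.inl false) (Sum.inl false)) (kk inc P (Sum.inl false) (Sum.inl true))
    (kk inc P (Sum.inl true) (Sum.inl true))
    (aval act fun a => kk inc P (Sum.inl false) (Sum.inr a))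
    (aval act fun a => kk inc P (Sum.inl true) (Sum.inr a))
    (aval act fun a => kk inc P (Sum.inr a) (Sum.inr a))
    (im inc (Sum.inl false) c1) (im inc (Sum.inl true) c1) (aval act fun a => im inc (Sum.inr a) c1)
    b1
    (im inc (Sum.inl false) c2) (im inc (Sum.inl true) c2) (aval act fun a => im inc (Sum.inr a) c2)
    b2

theorem euler_of_chkAt (inc : Bool ⊕ U → C → Prop) (vf vg : ZMod 2 × ZMod 2) (act : Option U)
    (P : Finset C) (b1 : Bool) (c1 : C) (b2 : Bool) (c2 : C)
    (hc : b1 = true → b2 = true → c1 ≠ c2)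
    (hM : Disjoint (mid b1 c1 b2 c2) P) (h : chkAt inc vf vg act P b1 c1 b2 c2) :
    Euler (bip inc) (axv (rvs vf vg act) (mid b1 c1 b2 c2) P) := by
  apply euler_axv inc _ _ _ hM
  intro x y hrow hcol
  -- inactive rows
  have h0 : ∀ u, act ≠ some u → x (Sum.inr u) = 0 := by
    intro u hu
    have h1 := hrow (Sum.inr u)
    simp only [rvs, hu, if_false, Prod.mk.injEq] at h1
    rcases h1 with h1 | h1 <;> exact h1.1
  -- sums over rows
  have hsum : ∀ φ : Bool ⊕ U → ZMod 2, ∑ r, φ r * x r =
      φ (Sum.inl false) * x (Sum.inl false) + φ (Sum.inl true) * x (Sum.inl true) +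
        (aval act fun a => φ (Sum.inr a)) * (aval act fun a => x (Sum.inr a)) := by
    intro φ
    rw [Fintype.sum_sum_type, Fintype.sum_bool]
    rw [add_comm (φ (Sum.inl true) * x (Sum.inl true))]
    congr 1
    cases act with
    | none =>
      simp only [aval, mul_zero]
      apply Finset.sum_eq_zero
      intro u _
      rw [h0 u (by simp), mul_zero]
    | some a =>
      simp only [aval]
      apply Finset.sum_eq_single a
      · intro u _ hu
        rw [h0 u (by intro h; exact hu (Option.some_injective _ h).symm), mul_zero]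
      · intro h; exact absurd (Finset.mem_univ _) h
  -- sums over the middle set
  have hmid : ∀ φ : C → ZMod 2, ∑ c ∈ mid b1 c1 b2 c2, φ c * y c =
      φ c1 * (bif b1 then y c1 else 0) + φ c2 * (bif b2 then y c2 else 0) := by
    intro φ
    unfold mid
    cases b1 <;> cases b2
    · simp
    · simp
    · simp
    · simp only [cond_true]
      rw [Finset.sum_union (Finset.disjoint_singleton.2 (hc rfl rfl)), Finset.sum_singleton,
        Finset.sum_singleton]
  have hrow' : ∀ r : Bool ⊕ U,
      (x r = 0 ∧ (kk inc P r (Sum.inl false) * x (Sum.inl false) +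
        kk inc P r (Sum.inl true) * x (Sum.inl true) +
        (aval act fun a => kk inc P r (Sum.inr a)) * (aval act fun a => x (Sum.inr a)) +
        (im inc r c1 * (bif b1 then y c1 else 0) + im inc r c2 * (bif b2 then y c2 else 0))) = 0) ∨
      (x r = (rvs vf vg act r).1 ∧ (kk inc P r (Sum.inl false) * x (Sum.inl false) +
        kk inc P r (Sum.inl true) * x (Sum.inl true) +
        (aval act fun a => kk inc P r (Sum.inr a)) * (aval act fun a => x (Sum.inr a)) +
        (im inc r c1 * (bif b1 then y c1 else 0) + im inc r c2 * (bif b2 then y c2 else 0))) =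
          (rvs vf vg act r).2) := by
    intro r
    have h1 := hrow r
    rw [hsum, hmid] at h1
    rcases h1 with h1 | h1
    · left
      rw [Prod.mk.injEq] at h1
      exact h1
    · right
      rw [← h1]
      exact ⟨rfl, rfl⟩
  have hf := hrow' (Sum.inl false)
  have hg := hrow' (Sum.inl true)
  rw [kk_comm inc P (Sum.inl true) (Sum.inl false)] at hg
  have h2 := h (x (Sum.inl false)) (x (Sum.inl true)) (aval act fun a => x (Sum.inr a))
    (bif b1 then y c1 else 0) (bif b2 then y c2 else 0) hf hg (by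
      cases act with
      | none =>
        left
        simp [aval]
      | some a =>
        have ha := hrow' (Sum.inr a)
        rw [kk_comm inc P (Sum.inr a) (Sum.inl false), kk_comm inc P (Sum.inr a) (Sum.inl true)]
          at ha
        simpa [aval, rvs, vact] using ha)
    (by
      cases b1 with
      | false => rfl
      | true =>
        have h3 := hcol c1 (by unfold mid; simp)
        rw [hsum (fun r => im inc r c1)] at h3
        exact h3)
    (by
      cases b2 with
      | false => rfl
      | true =>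
        have h3 := hcol c2 (by unfold mid; simp)
        rw [hsum (fun r => im inc r c2)] at h3
        exact h3)
  obtain ⟨e1, e2, e3, e4, e5⟩ := h2
  constructor
  · rintro (b | u)
    · cases b
      · exact e1
      · exact e2
    · by_cases hu : act = some u
      · subst hu
        exact e3
      · exact h0 u hu
  · intro c hcM
    unfold mid at hcM
    rw [Finset.mem_union] at hcM
    rcases hcM with h3 | h3
    · cases b1 with
      | false => simp at h3
      | true =>
        simp only [cond_true, Finset.mem_singleton] at h3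
        rw [h3]
        exact e4
    · cases b2 with
      | false => simp at h3
      | true =>
        simp only [cond_true, Finset.mem_singleton] at h3
        rw [h3]
        exact e5

/-! ### Moves -/

/-- Form values of the processed set on the rows `f, g` and the active row. -/
noncomputable def kv (inc : Bool ⊕ U → C → Prop) (act : Option U) (P : Finset C) :
    ZMod 2 × ZMod 2 × ZMod 2 × ZMod 2 × ZMod 2 × ZMod 2 :=
  (kk inc P (Sum.inl false) (Sum.inl false), kk inc P (Sum.inl false) (Sum.inl true),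
    kk inc P (Sum.inl true) (Sum.inl true),
    (aval act fun a => kk inc P (Sum.inl false) (Sum.inr a)),
    (aval act fun a => kk inc P (Sum.inl true) (Sum.inr a)),
    (aval act fun a => kk inc P (Sum.inr a) (Sum.inr a)))

/-- Pattern of a column on the rows `f, g` and the active row. -/
noncomputable def pv (inc : Bool ⊕ U → C → Prop) (act : Option U) (c : C) :
    ZMod 2 × ZMod 2 × ZMod 2 :=
  (im inc (Sum.inl false) c, im inc (Sum.inl true) c, (aval act fun a => im inc (Sum.inr a) c))

/-- Adding the square of a pattern to the form. -/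
def addk (k : ZMod 2 × ZMod 2 × ZMod 2 × ZMod 2 × ZMod 2 × ZMod 2)
    (p : ZMod 2 × ZMod 2 × ZMod 2) : ZMod 2 × ZMod 2 × ZMod 2 × ZMod 2 × ZMod 2 × ZMod 2 :=
  (p.1 * p.1 + k.1, p.1 * p.2.1 + k.2.1, p.2.1 * p.2.1 + k.2.2.1, p.1 * p.2.2 + k.2.2.2.1,
    p.2.1 * p.2.2 + k.2.2.2.2.1, p.2.2 * p.2.2 + k.2.2.2.2.2)

omit [Fintype U] [DecidableEq U] [Fintype C] in
theorem kv_insert (inc : Bool ⊕ U → C → Prop) (act : Option U) (P : Finset C) (c : C)
    (hc : c ∉ P) : kv inc act (insert c P) = addk (kv inc act P) (pv inc act c) := by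
  unfold kv addk pv
  simp only [kk_insert inc P c hc]
  cases act <;> simp [aval]

/-- Compact form of the check. -/
def chk' (vf vg va : ZMod 2 × ZMod 2) (k : ZMod 2 × ZMod 2 × ZMod 2 × ZMod 2 × ZMod 2 × ZMod 2)
    (p1 : ZMod 2 × ZMod 2 × ZMod 2) (b1 : Bool) (p2 : ZMod 2 × ZMod 2 × ZMod 2) (b2 : Bool) :
    Prop :=
  chk vf vg va k.1 k.2.1 k.2.2.1 k.2.2.2.1 k.2.2.2.2.1 k.2.2.2.2.2 p1.1 p1.2.1 p1.2.2 b1
    p2.1 p2.2.1 p2.2.2 b2

instance (vf vg va : ZMod 2 × ZMod 2) (k : ZMod 2 × ZMod 2 × ZMod 2 × ZMod 2 × ZMod 2 × ZMod 2)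
    (p1 : ZMod 2 × ZMod 2 × ZMod 2) (b1 : Bool) (p2 : ZMod 2 × ZMod 2 × ZMod 2) (b2 : Bool) :
    Decidable (chk' vf vg va k p1 b1 p2 b2) := by
  unfold chk'; infer_instance

theorem euler_of_chk' (inc : Bool ⊕ U → C → Prop) (vf vg : ZMod 2 × ZMod 2) (act : Option U)
    (P : Finset C) (b1 : Bool) (c1 : C) (b2 : Bool) (c2 : C)
    (hc : b1 = true → b2 = true → c1 ≠ c2)
    (hM : Disjoint (mid b1 c1 b2 c2) P)
    (h : chk' vf vg (vact act) (kv inc act P) (pv inc act c1) b1 (pv inc act c2) b2) :
    Euler (bip inc) (axv (rvs vf vg act) (mid b1 c1 b2 c2) P) :=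
  euler_of_chkAt inc vf vg act P b1 c1 b2 c2 hc hM h

/-- The checks needed for processing the pair of columns with patterns `p1, p2`. -/
def PairOK (vf vg va : ZMod 2 × ZMod 2)
    (k : ZMod 2 × ZMod 2 × ZMod 2 × ZMod 2 × ZMod 2 × ZMod 2)
    (p1 p2 : ZMod 2 × ZMod 2 × ZMod 2) : Prop :=
  chk' vf vg va k p1 true p2 false ∧ chk' vf vg va k p1 true p2 true ∧
  chk' vf vg va (addk k p1) p1 false p2 true ∧
  chk' vf vg va (addk (addk k p1) p2) p1 false p2 false

instance (vf vg va : ZMod 2 × ZMod 2) (k : ZMod 2 × ZMod 2 × ZMod 2 × ZMod 2 × ZMod 2 × ZMod 2)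
    (p1 p2 : ZMod 2 × ZMod 2 × ZMod 2) : Decidable (PairOK vf vg va k p1 p2) := by
  unfold PairOK; infer_instance

omit [Fintype C] in
theorem mid_ff (c1 c2 : C) : mid false c1 false c2 = ∅ := by simp [mid]

omit [Fintype C] in
theorem mid_tf (c1 c2 : C) : mid true c1 false c2 = {c1} := by simp [mid]

omit [Fintype C] in
theorem mid_ft (c1 c2 : C) : mid false c1 true c2 = {c2} := by simp [mid]

omit [Fintype C] in
theorem mid_tt (c1 c2 : C) : mid true c1 true c2 = {c1, c2} := by
  simp [mid]

/-- Processing a pair of columns. -/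
theorem pair_walk (inc : Bool ⊕ U → C → Prop) (vf vg : ZMod 2 × ZMod 2) (act : Option U)
    (P : Finset C) (c1 c2 : C) (hc : c1 ≠ c2) (h1 : c1 ∉ P) (h2 : c2 ∉ P)
    (h : PairOK vf vg (vact act) (kv inc act P) (pv inc act c1) (pv inc act c2)) :
    Walk (bip inc) (axv (rvs vf vg act) ∅ P) [Sum.inr c1, Sum.inr c2, Sum.inr c1, Sum.inr c2]
      (axv (rvs vf vg act) ∅ (insert c2 (insert c1 P))) := by
  obtain ⟨k1, k2, k3, k4⟩ := h
  have h2' : c2 ∉ insert c1 P := by
    rw [Finset.mem_insert]; push Not; exact ⟨hc.symm, h2⟩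
  have e1 : Euler (bip inc) (axv (rvs vf vg act) {c1} P) := by
    rw [← mid_tf c1 c2]
    apply euler_of_chk' inc vf vg act P true c1 false c2 (fun _ h => by simp at h)
    · rw [mid_tf]; simpa using h1
    · exact k1
  have e2 : Euler (bip inc) (axv (rvs vf vg act) {c1, c2} P) := by
    rw [← mid_tt c1 c2]
    apply euler_of_chk' inc vf vg act P true c1 true c2 (fun _ _ => hc)
    · rw [mid_tt]; simp [h1, h2]
    · exact k2
  have e3 : Euler (bip inc) (axv (rvs vf vg act) {c2} (insert c1 P)) := by
    rw [← mid_ft c1 c2]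
    apply euler_of_chk' inc vf vg act _ false c1 true c2 (fun h _ => by simp at h)
    · rw [mid_ft]
      rw [Finset.disjoint_singleton_left]
      exact h2'
    · rw [kv_insert inc act P c1 h1]; exact k3
  have e4 : Euler (bip inc) (axv (rvs vf vg act) ∅ (insert c2 (insert c1 P))) := by
    rw [← mid_ff c1 c2]
    apply euler_of_chk' inc vf vg act _ false c1 false c2 (fun h _ => by simp at h)
    · rw [mid_ff]; simp
    · rw [kv_insert inc act _ c2 h2', kv_insert inc act P c1 h1]; exact k4
  have w1 : Walk (bip inc) (axv (rvs vf vg act) ∅ P) [Sum.inr c1]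
      (axv (rvs vf vg act) {c1} P) := by
    apply Walk.single (Sum.inr c1)
    · simp [axv]
    · simp [axv, h1]
    · exact e1
    · rintro (r | c) hne
      · rfl
      · have : c ≠ c1 := fun h => hne (by rw [h])
        simp [axv, this]
  have w2 : Walk (bip inc) (axv (rvs vf vg act) {c1} P) [Sum.inr c2]
      (axv (rvs vf vg act) {c1, c2} P) := by
    apply Walk.single (Sum.inr c2)
    · simp [axv]
    · simp [axv, h2, hc.symm]
    · exact e2
    · rintro (r | c) hne
      · rfl
      · have : c ≠ c2 := fun h => hne (by rw [h])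
        simp [axv, this]
  have w3 : Walk (bip inc) (axv (rvs vf vg act) {c1, c2} P) [Sum.inr c1]
      (axv (rvs vf vg act) {c2} (insert c1 P)) := by
    apply Walk.single (Sum.inr c1)
    · simp [axv, hc]
    · simp [axv, hc]
    · exact e3
    · rintro (r | c) hne
      · rfl
      · have : c ≠ c1 := fun h => hne (by rw [h])
        simp [axv, this]
  have w4 : Walk (bip inc) (axv (rvs vf vg act) {c2} (insert c1 P)) [Sum.inr c2]
      (axv (rvs vf vg act) ∅ (insert c2 (insert c1 P))) := by
    apply Walk.single (Sum.inr c2)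
    · simp [axv]
    · simp [axv]
    · exact e4
    · rintro (r | c) hne
      · rfl
      · have : c ≠ c2 := fun h => hne (by rw [h])
        simp [axv, this]
  exact ((w1.append w2).append w3).append w4

/-- Activation of the row `a` (with value `X`). -/
theorem on_walk (inc : Bool ⊕ U → C → Prop) (vf vg : ZMod 2 × ZMod 2) (a : U)
    (P : Finset C) (c0 : C)
    (h : chk' vf vg (1, 0) (kv inc (some a) P) (0, 0, 0) false (0, 0, 0) false) :
    Walk (bip inc) (axv (rvs vf vg none) ∅ P) [Sum.inl (Sum.inr a)]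
      (axv (rvs vf vg (some a)) ∅ P) := by
  apply Walk.single (Sum.inl (Sum.inr a))
  · simp [axv, rvs]
  · simp [axv, rvs]
  · rw [← mid_ff c0 c0]
    apply euler_of_chk' inc vf vg (some a) P false c0 false c0 (fun h _ => by simp at h)
    · rw [mid_ff]; simp
    · intro xf xg xa y1 y2 h1 h2 h3 h4 h5
      simp only [cond_false] at h4 h5
      subst h4 h5
      simp only [mul_zero, add_zero] at h1 h2 h3
      apply h xf xg xa 0 0 _ _ _ rfl rfl
      · simpa using h1
      · simpa using h2
      · simpa [vact] using h3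
  · rintro (r | c) hne
    · rcases r with (_ | _) | u
      · rfl
      · rfl
      · have : a ≠ u := fun h => hne (by rw [h])
        simp [axv, rvs, this]
    · rfl

/-- Deactivation of the row `a`. -/
theorem off_walk (inc : Bool ⊕ U → C → Prop) (vf vg : ZMod 2 × ZMod 2) (a : U)
    (P : Finset C) (c0 : C)
    (h : chk' vf vg (0, 1) (kv inc none P) (0, 0, 0) false (0, 0, 0) false) :
    Walk (bip inc) (axv (rvs vf vg (some a)) ∅ P) [Sum.inl (Sum.inr a)]
      (axv (rvs vf vg none) ∅ P) := by
  apply Walk.single (Sum.inl (Sum.inr a))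
  · simp [axv, rvs]
  · simp [axv, rvs]
  · rw [← mid_ff c0 c0]
    apply euler_of_chk' inc vf vg none P false c0 false c0 (fun h _ => by simp at h)
    · rw [mid_ff]; simp
    · intro xf xg xa y1 y2 h1 h2 h3 h4 h5
      simp only [cond_false] at h4 h5
      subst h4 h5
      simp only [mul_zero, add_zero] at h1 h2 h3
      apply h xf xg xa 0 0 _ _ _ rfl rfl
      · simpa using h1
      · simpa using h2
      · simpa [vact] using h3
  · rintro (r | c) hne
    · rcases r with (_ | _) | u
      · rfl
      · rfl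
      · have : a ≠ u := fun h => hne (by rw [h])
        simp [axv, rvs, this]
    · rfl

/-- Changing the value of one of the special rows `f, g` while no column or one column is in
middle position. -/
theorem row_walk (inc : Bool ⊕ U → C → Prop) (vf vg vf' vg' : ZMod 2 × ZMod 2) (r : Bool)
    (P : Finset C) (b1 : Bool) (c1 : C) (hc1 : b1 = true → c1 ∉ P)
    (h0 : (bif r then vg' else vf') ≠ (0, 0))
    (h1 : (bif r then vg' else vf') ≠ (bif r then vg else vf))
    (h2 : (bif r then vf' = vf else vg' = vg))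
    (h : chk' vf' vg' (0, 1) (kv inc none P) (pv inc none c1) b1 (pv inc none c1) false) :
    Walk (bip inc) (axv (rvs vf vg none) (mid b1 c1 false c1) P) [Sum.inl (Sum.inl r)]
      (axv (rvs vf' vg' none) (mid b1 c1 false c1) P) := by
  apply Walk.single (Sum.inl (Sum.inl r))
  · cases r
    · simpa [axv, rvs] using h0
    · simpa [axv, rvs] using h0
  · cases r
    · simpa [axv, rvs] using h1
    · simpa [axv, rvs] using h1
  · apply euler_of_chk' inc vf' vg' none P b1 c1 false c1 (fun _ h => by simp at h)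
    · cases b1
      · rw [mid_ff]; simp
      · rw [mid_tf]; simpa using hc1 rfl
    · exact h
  · rintro (r' | c) hne
    · rcases r' with (_ | _) | u
      · cases r
        · exact absurd rfl hne
        · exact h2
      · cases r
        · exact h2
        · exact absurd rfl hne
      · rfl
    · rfl

/-- Moving a column into middle position. -/
theorem colin_walk (inc : Bool ⊕ U → C → Prop) (vf vg : ZMod 2 × ZMod 2)
    (P : Finset C) (c1 : C) (hc1 : c1 ∉ P)
    (h : chk' vf vg (0, 1) (kv inc none P) (pv inc none c1) true (pv inc none c1) false) :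
    Walk (bip inc) (axv (rvs vf vg none) ∅ P) [Sum.inr c1]
      (axv (rvs vf vg none) {c1} P) := by
  apply Walk.single (Sum.inr c1)
  · simp [axv]
  · simp [axv, hc1]
  · rw [← mid_tf c1 c1]
    apply euler_of_chk' inc vf vg none P true c1 false c1 (fun _ h => by simp at h)
    · rw [mid_tf]; simpa using hc1
    · exact h
  · rintro (r | c) hne
    · rfl
    · have : c ≠ c1 := fun h => hne (by rw [h])
      simp [axv, this]

/-- Moving a column from middle position to the processed set. -/
theorem colout_walk (inc : Bool ⊕ U → C → Prop) (vf vg : ZMod 2 × ZMod 2)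
    (P : Finset C) (c1 : C) (hc1 : c1 ∉ P)
    (h : chk' vf vg (0, 1) (addk (kv inc none P) (pv inc none c1)) (pv inc none c1) false
      (pv inc none c1) false) :
    Walk (bip inc) (axv (rvs vf vg none) {c1} P) [Sum.inr c1]
      (axv (rvs vf vg none) ∅ (insert c1 P)) := by
  apply Walk.single (Sum.inr c1)
  · simp [axv]
  · simp [axv]
  · rw [← mid_ff c1 c1]
    apply euler_of_chk' inc vf vg none _ false c1 false c1 (fun h _ => by simp at h)
    · rw [mid_ff]; simp
    · rw [kv_insert inc none P c1 hc1]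
      exact h
  · rintro (r | c) hne
    · rfl
    · have : c ≠ c1 := fun h => hne (by rw [h])
      simp [axv, this]

/-- A walk built from a list of gadgets. -/
theorem list_walk {ι : Type*} [DecidableEq ι] (inc : Bool ⊕ U → C → Prop)
    (rv : Bool ⊕ U → ZMod 2 × ZMod 2)
    (gs : ι → Finset C) (ws : ι → List ((Bool ⊕ U) ⊕ C)) (Inv : Finset C → Prop)
    (cond : ι → Prop)
    (hdisj : ∀ i j, i ≠ j → Disjoint (gs i) (gs j))
    (hstep : ∀ i P, cond i → Inv P → Disjoint P (gs i) →
      Walk (bip inc) (axv rv ∅ P) (ws i) (axv rv ∅ (P ∪ gs i)) ∧ Inv (P ∪ gs i)) :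
    ∀ (l : List ι), l.Nodup → (∀ i ∈ l, cond i) → ∀ P, Inv P → (∀ i ∈ l, Disjoint P (gs i)) →
      Walk (bip inc) (axv rv ∅ P) (l.flatMap ws) (axv rv ∅ (P ∪ l.toFinset.biUnion gs)) ∧
        Inv (P ∪ l.toFinset.biUnion gs) := by
  intro l
  induction l with
  | nil =>
    intro _ _ P hP _
    simp only [List.flatMap_nil, List.toFinset_nil, Finset.biUnion_empty, Finset.union_empty]
    exact ⟨Walk.nil _, hP⟩
  | cons i l ih =>
    intro hnd hc P hP hD
    rw [List.nodup_cons] at hnd
    have h1 := hstep i P (hc i (by simp)) hP (hD i (by simp))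
    have h2 := ih hnd.2 (fun j hj => hc j (List.mem_cons_of_mem _ hj)) (P ∪ gs i) h1.2 (by
      intro j hj
      rw [Finset.disjoint_union_left]
      refine ⟨hD j (List.mem_cons_of_mem _ hj), hdisj i j ?_⟩
      rintro rfl
      exact hnd.1 hj)
    have h3 : P ∪ (i :: l).toFinset.biUnion gs = P ∪ gs i ∪ l.toFinset.biUnion gs := by
      rw [List.toFinset_cons, Finset.biUnion_insert, Finset.union_assoc]
    rw [List.flatMap_cons, h3]
    exact ⟨h1.1.append h2.1, h2.2⟩

end Two

end Pool.Agent.H40.CR
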