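import Mathlib
import Pool.Agent.H40.CR.Bip

/-!
# The reduction graph

For a graph `H` on `U` the reduction graph is bipartite with rows `f, g` and `U`, and with
`8 + 6 |U| + 8 |U|^2` columns.
-/

namespace Pool.Agent.H40.CR

variable {U : Type*}

/-- The columns of the reduction graph: `8` base columns, columns `(i, e, b)` of the gadget of the
vertex `b` and columns `(t, j, u, v)` of the gadget of the pair `(u, v)`. -/
abbrev Col (U : Type*) := Fin 8 ⊕ ((Fin 3 × Bool × U) ⊕ (Fin 4 × Bool × U × U))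

instance instDecEqCol [DecidableEq U] : DecidableEq (Col U) := instDecidableEqSum

instance instDecEqVert [DecidableEq U] : DecidableEq ((Bool ⊕ U) ⊕ Col U) := instDecidableEqSum

/-- The incidence relation of the reduction graph. Rows: `f = inl false`, `g = inl true`,
`a = inr a`. Base columns: `0, 1` are `{f, g}`; `2, 5, 6` are `{f}`; `3, 4, 7` are `{g}`.
Vertex gadget of `b`: `(0, e), (1, e), (2, e)` are `{f}, {g}, {f, g}`, together with `b` if
`e = true`. Pair gadget of `(u, v)` (two copies `j` of each): `t = 0` is `{u, v}` if `u, v` are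
adjacent and `{g}` otherwise, `t = 1` is `{f, u}`, `t = 2` is `{f, v}`, `t = 3` is `{g}`. -/
def rinc (H : SimpleGraph U) : Bool ⊕ U → Col U → Prop
  | Sum.inl false, Sum.inl i => i = 0 ∨ i = 1 ∨ i = 2 ∨ i = 5 ∨ i = 6
  | Sum.inl true, Sum.inl i => i = 0 ∨ i = 1 ∨ i = 3 ∨ i = 4 ∨ i = 7
  | Sum.inr _, Sum.inl _ => False
  | Sum.inl false, Sum.inr (Sum.inl (i, _, _)) => i = 0 ∨ i = 2
  | Sum.inl true, Sum.inr (Sum.inl (i, _, _)) => i = 1 ∨ i = 2
  | Sum.inr a, Sum.inr (Sum.inl (_, e, b)) => e = true ∧ a = b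
  | Sum.inl false, Sum.inr (Sum.inr (t, _, _, _)) => t = 1 ∨ t = 2
  | Sum.inl true, Sum.inr (Sum.inr (t, _, u, v)) => t = 3 ∨ (t = 0 ∧ ¬ H.Adj u v)
  | Sum.inr a, Sum.inr (Sum.inr (t, _, u, v)) =>
      (t = 0 ∧ H.Adj u v ∧ (a = u ∨ a = v)) ∨ (t = 1 ∧ a = u) ∨ (t = 2 ∧ a = v)

/-- The reduction graph. -/
def redG (H : SimpleGraph U) : SimpleGraph ((Bool ⊕ U) ⊕ Col U) := bip (rinc H)

section Values

variable (H : SimpleGraph U)

/-- Base column. -/
abbrev cb (i : Fin 8) : Col U := Sum.inl i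
/-- Vertex gadget column. -/
abbrev cv (i : Fin 3) (e : Bool) (b : U) : Col U := Sum.inr (Sum.inl (i, e, b))
/-- Pair gadget column. -/
abbrev cp (t : Fin 4) (j : Bool) (u v : U) : Col U := Sum.inr (Sum.inr (t, j, u, v))

theorem im_f_cb (i : Fin 8) : im (rinc H) (Sum.inl false) (cb i) =
    if i = 0 ∨ i = 1 ∨ i = 2 ∨ i = 5 ∨ i = 6 then 1 else 0 := by
  unfold im; congr

theorem im_g_cb (i : Fin 8) : im (rinc H) (Sum.inl true) (cb i) =
    if i = 0 ∨ i = 1 ∨ i = 3 ∨ i = 4 ∨ i = 7 then 1 else 0 := by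
  unfold im; congr

theorem im_r_cb (a : U) (i : Fin 8) : im (rinc H) (Sum.inr a) (cb i) = 0 := by
  unfold im; rw [if_neg]; intro h; exact h

theorem im_f_cv (i : Fin 3) (e : Bool) (b : U) : im (rinc H) (Sum.inl false) (cv i e b) =
    if i = 0 ∨ i = 2 then 1 else 0 := by
  unfold im; congr

theorem im_g_cv (i : Fin 3) (e : Bool) (b : U) : im (rinc H) (Sum.inl true) (cv i e b) =
    if i = 1 ∨ i = 2 then 1 else 0 := by
  unfold im; congr

theorem im_r_cv [DecidableEq U] (a : U) (i : Fin 3) (e : Bool) (b : U) :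
    im (rinc H) (Sum.inr a) (cv i e b) = if e = true ∧ a = b then 1 else 0 := by
  unfold im; congr

theorem im_f_cp (t : Fin 4) (j : Bool) (u v : U) : im (rinc H) (Sum.inl false) (cp t j u v) =
    if t = 1 ∨ t = 2 then 1 else 0 := by
  unfold im; congr

open Classical in
theorem im_g_cp (t : Fin 4) (j : Bool) (u v : U) : im (rinc H) (Sum.inl true) (cp t j u v) =
    if t = 3 ∨ (t = 0 ∧ ¬ H.Adj u v) then 1 else 0 := by
  unfold im; congr

open Classical in
theorem im_r_cp (a : U) (t : Fin 4) (j : Bool) (u v : U) :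
    im (rinc H) (Sum.inr a) (cp t j u v) =
    if (t = 0 ∧ H.Adj u v ∧ (a = u ∨ a = v)) ∨ (t = 1 ∧ a = u) ∨ (t = 2 ∧ a = v)
      then 1 else 0 := by
  unfold im; congr

/-- The incidence with pair gadget columns does not depend on the copy. -/
theorem im_cp_copy (r : Bool ⊕ U) (t : Fin 4) (j : Bool) (u v : U) :
    im (rinc H) r (cp t j u v) = im (rinc H) r (cp t false u v) := by
  rcases r with (_ | _) | a
  · rw [im_f_cp, im_f_cp]
  · rw [im_g_cp, im_g_cp]
  · rw [im_r_cp, im_r_cp]

end Values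

section Orth

variable [Fintype U] [DecidableEq U] (H : SimpleGraph U)

theorem two_zero (a : ZMod 2) : a + a = 0 := by revert a; decide

/-- The rows of the reduction graph are orthonormal over `F₂`. -/
theorem orth (r r' : Bool ⊕ U) :
    ∑ c, im (rinc H) r c * im (rinc H) r' c = if r = r' then 1 else 0 := by
  rw [Fintype.sum_sum_type, Fintype.sum_sum_type]
  have hp : ∑ x : Fin 4 × Bool × U × U,
      im (rinc H) r (Sum.inr (Sum.inr x)) * im (rinc H) r' (Sum.inr (Sum.inr x)) = 0 := by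
    rw [Fintype.sum_prod_type]
    apply Finset.sum_eq_zero
    intro t _
    rw [Fintype.sum_prod_type, Fintype.sum_bool]
    have : ∀ x : U × U, im (rinc H) r (Sum.inr (Sum.inr (t, true, x))) *
        im (rinc H) r' (Sum.inr (Sum.inr (t, true, x))) =
        im (rinc H) r (Sum.inr (Sum.inr (t, false, x))) *
        im (rinc H) r' (Sum.inr (Sum.inr (t, false, x))) := by
      rintro ⟨u, v⟩
      rw [im_cp_copy H r t true u v, im_cp_copy H r' t true u v]
    simp only [this]
    exact two_zero _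
  rw [hp, add_zero]
  rw [Fintype.sum_prod_type]
  simp only [Fintype.sum_prod_type (γ := ZMod 2), Fintype.sum_bool, Fin.sum_univ_three,
    Fin.sum_univ_eight]
  rcases r with (_ | _) | a <;> rcases r' with (_ | _) | a' <;>
  simp only [im_f_cb, im_g_cb, im_r_cb, im_f_cv, im_g_cv, im_r_cv]
  · simp
    simp only [two_zero, add_zero]
    decide
  · simp [two_zero]
  · simp [two_zero]
  · simp [two_zero]
  · simp
    simp only [two_zero, add_zero]
    decide
  · simp [two_zero]
  · simp [two_zero]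
  · simp [two_zero]
  · by_cases h : a = a'
    · subst h
      simp
      decide
    · have : ∀ b : U, ¬ (a = b ∧ a' = b) := fun b hb => h (hb.1.trans hb.2.symm)
      simp [h]

end Orth

end Pool.Agent.H40.CR
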