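import Mathlib
import Pool.Agent.H40.CR.Red

/-!
# The upper bound for the reduction graph

For a vertex cover `D` of `H` we construct a string reversing the colours of the reduction graph.
-/

namespace Pool.Agent.H40.CR

variable {U : Type*} [Fintype U] [DecidableEq U] (H : SimpleGraph U)

/-- The columns of the gadget of `b`. -/
def vset (b : U) : Finset (Col U) :=
  {cv 0 false b, cv 1 false b, cv 2 false b, cv 0 true b, cv 1 true b, cv 2 true b}

/-- The columns of the gadget of `(u, v)`. -/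
def pset (p : U × U) : Finset (Col U) :=
  {cp 0 false p.1 p.2, cp 0 true p.1 p.2, cp 1 false p.1 p.2, cp 1 true p.1 p.2,
    cp 2 false p.1 p.2, cp 2 true p.1 p.2, cp 3 false p.1 p.2, cp 3 true p.1 p.2}

omit [Fintype U] in
theorem mem_vset (b : U) (c : Col U) : c ∈ vset b ↔ ∃ i e, c = cv i e b := by
  unfold vset
  simp only [Finset.mem_insert, Finset.mem_singleton]
  constructor
  · rintro (h | h | h | h | h | h) <;> exact ⟨_, _, h⟩
  · rintro ⟨i, e, rfl⟩
    fin_cases i <;> cases e <;> simp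

omit [Fintype U] in
theorem mem_pset (p : U × U) (c : Col U) : c ∈ pset p ↔ ∃ t j, c = cp t j p.1 p.2 := by
  unfold pset
  simp only [Finset.mem_insert, Finset.mem_singleton]
  constructor
  · rintro (h | h | h | h | h | h | h | h) <;> exact ⟨_, _, h⟩
  · rintro ⟨t, j, rfl⟩
    fin_cases t <;> cases j <;> simp

omit [Fintype U] in
theorem vset_disj (b b' : U) (h : b ≠ b') : Disjoint (vset b) (vset b') := by
  rw [Finset.disjoint_left]
  intro c h1 h2
  rw [mem_vset] at h1 h2
  obtain ⟨i, e, rfl⟩ := h1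
  obtain ⟨i', e', h3⟩ := h2
  simp only [Sum.inr.injEq, Sum.inl.injEq, Prod.mk.injEq] at h3
  exact h h3.2.2

omit [Fintype U] in
theorem pset_disj (p p' : U × U) (h : p ≠ p') : Disjoint (pset p) (pset p') := by
  rw [Finset.disjoint_left]
  intro c h1 h2
  rw [mem_pset] at h1 h2
  obtain ⟨t, j, rfl⟩ := h1
  obtain ⟨t', j', h3⟩ := h2
  simp only [Sum.inr.injEq, Prod.mk.injEq] at h3
  exact h (Prod.ext h3.2.2.1 h3.2.2.2)

/-- Word of a pair of columns. -/
def pw (c1 c2 : Col U) : List ((Bool ⊕ U) ⊕ Col U) :=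
  [Sum.inr c1, Sum.inr c2, Sum.inr c1, Sum.inr c2]

/-- Word of the vertex gadget. -/
def vword (b : U) : List ((Bool ⊕ U) ⊕ Col U) :=
  pw (cv 0 false b) (cv 1 false b) ++ pw (cv 2 false b) (cv 0 true b) ++
    pw (cv 1 true b) (cv 2 true b)

/-- Word of the gadget of a nonadjacent pair. -/
def nword (p : U × U) : List ((Bool ⊕ U) ⊕ Col U) :=
  pw (cp 1 false p.1 p.2) (cp 0 false p.1 p.2) ++ pw (cp 0 true p.1 p.2) (cp 1 true p.1 p.2) ++
    (pw (cp 2 false p.1 p.2) (cp 3 false p.1 p.2) ++ pw (cp 3 true p.1 p.2) (cp 2 true p.1 p.2))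

/-- Word of the gadget of an adjacent pair, `x` (resp. `y`) being the type of the columns with
(resp. without) the active row. -/
def eword (x y : Fin 4) (p : U × U) : List ((Bool ⊕ U) ⊕ Col U) :=
  pw (cp 0 false p.1 p.2) (cp x false p.1 p.2) ++ pw (cp x true p.1 p.2) (cp 0 true p.1 p.2) ++
    (pw (cp y false p.1 p.2) (cp 3 false p.1 p.2) ++ pw (cp 3 true p.1 p.2) (cp y true p.1 p.2))

/-- Two pairs in a row. -/
theorem pair2_walk (inc : Bool ⊕ U → Col U → Prop) (vf vg : ZMod 2 × ZMod 2) (act : Option U)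
    (P : Finset (Col U)) (c1 c2 c3 c4 : Col U) (hnd : [c1, c2, c3, c4].Nodup)
    (h1 : c1 ∉ P) (h2 : c2 ∉ P) (h3 : c3 ∉ P) (h4 : c4 ∉ P)
    (k : ZMod 2 × ZMod 2 × ZMod 2 × ZMod 2 × ZMod 2 × ZMod 2)
    (hk : kv inc act P = k) (p1 p2 p3 p4 : ZMod 2 × ZMod 2 × ZMod 2)
    (hp1 : pv inc act c1 = p1) (hp2 : pv inc act c2 = p2) (hp3 : pv inc act c3 = p3)
    (hp4 : pv inc act c4 = p4) (va : ZMod 2 × ZMod 2) (hva : vact act = va)
    (h : PairOK vf vg va k p1 p2)
    (h' : PairOK vf vg va (addk (addk k p1) p2) p3 p4) :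
    Walk (bip inc) (axv (rvs vf vg act) ∅ P) (pw c1 c2 ++ pw c3 c4)
      (axv (rvs vf vg act) ∅ (insert c4 (insert c3 (insert c2 (insert c1 P))))) ∧
    kv inc act (insert c4 (insert c3 (insert c2 (insert c1 P)))) =
      addk (addk (addk (addk k p1) p2) p3) p4 := by
  simp only [List.nodup_cons, List.mem_cons, List.not_mem_nil, or_false, not_or,
    not_false_eq_true, List.nodup_nil, and_true] at hnd
  obtain ⟨⟨n12, n13, n14⟩, ⟨n23, n24⟩, n34⟩ := hnd
  have m2 : c2 ∉ insert c1 P := by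
    rw [Finset.mem_insert]; push Not; exact ⟨fun h => n12 h.symm, h2⟩
  have m3 : c3 ∉ insert c2 (insert c1 P) := by
    rw [Finset.mem_insert, Finset.mem_insert]; push Not
    exact ⟨fun h => n23 h.symm, fun h => n13 h.symm, h3⟩
  have m4 : c4 ∉ insert c2 (insert c1 P) := by
    rw [Finset.mem_insert, Finset.mem_insert]; push Not
    exact ⟨fun h => n24 h.symm, fun h => n14 h.symm, h4⟩
  have m4' : c4 ∉ insert c3 (insert c2 (insert c1 P)) := by
    rw [Finset.mem_insert]; push Not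
    exact ⟨fun h => n34 h.symm, m4⟩
  have k2 : kv inc act (insert c2 (insert c1 P)) = addk (addk k p1) p2 := by
    rw [kv_insert inc act _ c2 m2, kv_insert inc act _ c1 h1, hk, hp1, hp2]
  have k4 : kv inc act (insert c4 (insert c3 (insert c2 (insert c1 P)))) =
      addk (addk (addk (addk k p1) p2) p3) p4 := by
    rw [kv_insert inc act _ c4 m4', kv_insert inc act _ c3 m3, k2, hp3, hp4]
  refine ⟨?_, k4⟩
  apply Walk.append
  · apply pair_walk inc vf vg act P c1 c2 n12 h1 h2
    rw [hk, hp1, hp2, hva]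
    exact h
  · apply pair_walk inc vf vg act _ c3 c4 n34 m3 m4
    rw [k2, hp3, hp4, hva]
    exact h'

omit [Fintype U] [DecidableEq U] in
/-- Values at a vertex gadget column, no active row. -/
theorem pv_cv (i : Fin 3) (e : Bool) (b : U) : pv (rinc H) none (cv i e b) =
    (if i = 0 ∨ i = 2 then 1 else 0, if i = 1 ∨ i = 2 then 1 else 0, 0) := by
  unfold pv
  rw [im_f_cv, im_g_cv]
  rfl

/-- The walk through a vertex gadget. -/
theorem vwalk (b : U) (P : Finset (Col U)) (hk : kv (rinc H) none P = (1, 1, 1, 0, 0, 0))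
    (hd : Disjoint P (vset b)) :
    Walk (redG H) (axv (rvs (1, 1) (1, 0) none) ∅ P) (vword b)
      (axv (rvs (1, 1) (1, 0) none) ∅ (P ∪ vset b)) ∧
    kv (rinc H) none (P ∪ vset b) = (1, 1, 1, 0, 0, 0) := by
  have hn : ∀ i e, cv i e b ∉ P := by
    intro i e h
    exact (Finset.disjoint_left.1 hd) h ((mem_vset b _).2 ⟨i, e, rfl⟩)
  obtain ⟨w1, k1⟩ := pair2_walk (rinc H) (1, 1) (1, 0) none P (cv 0 false b) (cv 1 false b)
    (cv 2 false b) (cv 0 true b) (by simp) (hn _ _) (hn _ _) (hn _ _) (hn _ _) _ hk _ _ _ _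
    (pv_cv H _ _ _) (pv_cv H _ _ _) (pv_cv H _ _ _) (pv_cv H _ _ _) (0, 1) rfl
    (by decide) (by decide)
  have m5 : cv 1 true b ∉ insert (cv 0 true b) (insert (cv 2 false b) (insert (cv 1 false b)
      (insert (cv 0 false b) P))) := by
    simp [hn]
  have m6 : cv 2 true b ∉ insert (cv 0 true b) (insert (cv 2 false b) (insert (cv 1 false b)
      (insert (cv 0 false b) P))) := by
    simp [hn]
  have m6' : cv 2 true b ∉ insert (cv 1 true b) (insert (cv 0 true b) (insert (cv 2 false b)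
      (insert (cv 1 false b) (insert (cv 0 false b) P)))) := by
    simp [hn]
  have w2 := pair_walk (rinc H) (1, 1) (1, 0) none _ (cv 1 true b) (cv 2 true b) (by simp) m5 m6
    (by
      rw [k1, pv_cv, pv_cv]
      show PairOK (1, 1) (1, 0) (0, 1) _ _ _
      decide)
  have hfin : P ∪ vset b = insert (cv 2 true b) (insert (cv 1 true b) (insert (cv 0 true b)
      (insert (cv 2 false b) (insert (cv 1 false b) (insert (cv 0 false b) P))))) := by
    unfold vset
    simp only [Finset.insert_eq]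
    ac_rfl
  rw [hfin]
  constructor
  · exact w1.append w2
  · rw [kv_insert _ _ _ _ m6', kv_insert _ _ _ _ m5, k1, pv_cv, pv_cv]
    decide

/-- Values at a pair gadget column, no active row. -/
theorem pv_cp (t : Fin 4) (j : Bool) (u v : U) (h : ¬ H.Adj u v) :
    pv (rinc H) none (cp t j u v) =
      (if t = 1 ∨ t = 2 then 1 else 0, if t = 3 ∨ t = 0 then 1 else 0, 0) := by
  classical
  unfold pv
  rw [im_f_cp, im_g_cp]
  simp only [h, not_false_eq_true, and_true]
  rfl

/-- Values at a pair gadget column, active row `u`. -/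
theorem pv_cp_left (t : Fin 4) (j : Bool) (u v : U) (h : H.Adj u v) :
    pv (rinc H) (some u) (cp t j u v) =
      (if t = 1 ∨ t = 2 then 1 else 0, if t = 3 then 1 else 0,
        if t = 0 ∨ t = 1 then 1 else 0) := by
  classical
  unfold pv
  rw [im_f_cp, im_g_cp]
  simp only [aval]
  rw [im_r_cp]
  have hne : u ≠ v := H.ne_of_adj h
  simp [h, hne]

/-- Values at a pair gadget column, active row `v`. -/
theorem pv_cp_right (t : Fin 4) (j : Bool) (u v : U) (h : H.Adj u v) :
    pv (rinc H) (some v) (cp t j u v) =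
      (if t = 1 ∨ t = 2 then 1 else 0, if t = 3 then 1 else 0,
        if t = 0 ∨ t = 2 then 1 else 0) := by
  classical
  unfold pv
  rw [im_f_cp, im_g_cp]
  simp only [aval]
  rw [im_r_cp]
  have hne : v ≠ u := (H.ne_of_adj h).symm
  simp [h, hne]

theorem pset_union (p : U × U) (P : Finset (Col U)) (x y : Fin 4)
    (hxy : (x = 1 ∧ y = 2) ∨ (x = 2 ∧ y = 1)) :
    insert (cp y true p.1 p.2) (insert (cp 3 true p.1 p.2)
      (insert (cp 3 false p.1 p.2) (insert (cp y false p.1 p.2)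
      (insert (cp 0 true p.1 p.2) (insert (cp x true p.1 p.2)
      (insert (cp x false p.1 p.2) (insert (cp 0 false p.1 p.2) P))))))) = P ∪ pset p := by
  unfold pset
  simp only [Finset.insert_eq]
  rcases hxy with ⟨rfl, rfl⟩ | ⟨rfl, rfl⟩ <;> ac_rfl

/-- The form does not change when a whole pair gadget is processed. -/
theorem kk_pset (p : U × U) (P : Finset (Col U)) (hd : Disjoint P (pset p)) (r r' : Bool ⊕ U) :
    kk (rinc H) (P ∪ pset p) r r' = kk (rinc H) P r r' := by
  unfold kk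
  rw [Finset.sum_union hd]
  have : ∑ c ∈ pset p, im (rinc H) r c * im (rinc H) r' c = 0 := by
    unfold pset
    rw [Finset.sum_insert (by simp), Finset.sum_insert (by simp), Finset.sum_insert (by simp),
      Finset.sum_insert (by simp), Finset.sum_insert (by simp), Finset.sum_insert (by simp),
      Finset.sum_insert (by simp), Finset.sum_singleton]
    rw [im_cp_copy H r 0 true, im_cp_copy H r 1 true, im_cp_copy H r 2 true,
      im_cp_copy H r 3 true, im_cp_copy H r' 0 true, im_cp_copy H r' 1 true,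
      im_cp_copy H r' 2 true, im_cp_copy H r' 3 true]
    have h4 : ∀ a b c d : ZMod 2, a + (a + (b + (b + (c + (c + (d + d)))))) = 0 := by decide
    exact h4 _ _ _ _
  rw [this, add_zero]

theorem kv_pset (p : U × U) (P : Finset (Col U)) (hd : Disjoint P (pset p)) (act : Option U) :
    kv (rinc H) act (P ∪ pset p) = kv (rinc H) act P := by
  unfold kv
  simp only [kk_pset H p P hd]

/-- The walk through the gadget of a nonadjacent pair. -/
theorem nwalk (p : U × U) (hadj : ¬ H.Adj p.1 p.2) (P : Finset (Col U))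
    (hk : kv (rinc H) none P = (1, 1, 1, 0, 0, 0)) (hd : Disjoint P (pset p)) :
    Walk (redG H) (axv (rvs (1, 1) (1, 0) none) ∅ P) (nword p)
      (axv (rvs (1, 1) (1, 0) none) ∅ (P ∪ pset p)) := by
  have hn : ∀ t j, cp t j p.1 p.2 ∉ P := by
    intro t j h
    exact (Finset.disjoint_left.1 hd) h ((mem_pset p _).2 ⟨t, j, rfl⟩)
  obtain ⟨w1, k1⟩ := pair2_walk (rinc H) (1, 1) (1, 0) none P (cp 1 false p.1 p.2)
    (cp 0 false p.1 p.2) (cp 0 true p.1 p.2) (cp 1 true p.1 p.2) (by simp)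
    (hn _ _) (hn _ _) (hn _ _) (hn _ _) _ hk _ _ _ _
    (pv_cp H _ _ _ _ hadj) (pv_cp H _ _ _ _ hadj) (pv_cp H _ _ _ _ hadj) (pv_cp H _ _ _ _ hadj)
    (0, 1) rfl (by decide) (by decide)
  obtain ⟨w2, k2⟩ := pair2_walk (rinc H) (1, 1) (1, 0) none _ (cp 2 false p.1 p.2)
    (cp 3 false p.1 p.2) (cp 3 true p.1 p.2) (cp 2 true p.1 p.2) (by simp)
    (by simp [hn]) (by simp [hn]) (by simp [hn]) (by simp [hn]) _ k1 _ _ _ _
    (pv_cp H _ _ _ _ hadj) (pv_cp H _ _ _ _ hadj) (pv_cp H _ _ _ _ hadj) (pv_cp H _ _ _ _ hadj)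
    (0, 1) rfl (by decide) (by decide)
  have hfin : P ∪ pset p = insert (cp 2 true p.1 p.2) (insert (cp 3 true p.1 p.2)
      (insert (cp 3 false p.1 p.2) (insert (cp 2 false p.1 p.2)
      (insert (cp 1 true p.1 p.2) (insert (cp 0 true p.1 p.2)
      (insert (cp 0 false p.1 p.2) (insert (cp 1 false p.1 p.2) P))))))) := by
    unfold pset
    simp only [Finset.insert_eq]
    ac_rfl
  rw [hfin]
  exact w1.append w2

/-- The walk through the gadget of an adjacent pair, the active row being the first vertex. -/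
theorem ewalk_left (p : U × U) (hadj : H.Adj p.1 p.2) (P : Finset (Col U))
    (hk : kv (rinc H) (some p.1) P = (1, 1, 1, 0, 0, 1)) (hd : Disjoint P (pset p)) :
    Walk (redG H) (axv (rvs (1, 1) (1, 0) (some p.1)) ∅ P) (eword 1 2 p)
      (axv (rvs (1, 1) (1, 0) (some p.1)) ∅ (P ∪ pset p)) := by
  have hn : ∀ t j, cp t j p.1 p.2 ∉ P := by
    intro t j h
    exact (Finset.disjoint_left.1 hd) h ((mem_pset p _).2 ⟨t, j, rfl⟩)
  obtain ⟨w1, k1⟩ := pair2_walk (rinc H) (1, 1) (1, 0) (some p.1) P (cp 0 false p.1 p.2)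
    (cp 1 false p.1 p.2) (cp 1 true p.1 p.2) (cp 0 true p.1 p.2) (by simp)
    (hn _ _) (hn _ _) (hn _ _) (hn _ _) _ hk _ _ _ _
    (pv_cp_left H _ _ _ _ hadj) (pv_cp_left H _ _ _ _ hadj) (pv_cp_left H _ _ _ _ hadj)
    (pv_cp_left H _ _ _ _ hadj) (1, 0) rfl (by decide) (by decide)
  obtain ⟨w2, k2⟩ := pair2_walk (rinc H) (1, 1) (1, 0) (some p.1) _ (cp 2 false p.1 p.2)
    (cp 3 false p.1 p.2) (cp 3 true p.1 p.2) (cp 2 true p.1 p.2) (by simp)
    (by simp [hn]) (by simp [hn]) (by simp [hn]) (by simp [hn]) _ k1 _ _ _ _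
    (pv_cp_left H _ _ _ _ hadj) (pv_cp_left H _ _ _ _ hadj) (pv_cp_left H _ _ _ _ hadj)
    (pv_cp_left H _ _ _ _ hadj) (1, 0) rfl (by decide) (by decide)
  rw [← pset_union p P 1 2 (Or.inl ⟨rfl, rfl⟩)]
  exact w1.append w2

/-- The walk through the gadget of an adjacent pair, the active row being the second vertex. -/
theorem ewalk_right (p : U × U) (hadj : H.Adj p.1 p.2) (P : Finset (Col U))
    (hk : kv (rinc H) (some p.2) P = (1, 1, 1, 0, 0, 1)) (hd : Disjoint P (pset p)) :
    Walk (redG H) (axv (rvs (1, 1) (1, 0) (some p.2)) ∅ P) (eword 2 1 p)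
      (axv (rvs (1, 1) (1, 0) (some p.2)) ∅ (P ∪ pset p)) := by
  have hn : ∀ t j, cp t j p.1 p.2 ∉ P := by
    intro t j h
    exact (Finset.disjoint_left.1 hd) h ((mem_pset p _).2 ⟨t, j, rfl⟩)
  obtain ⟨w1, k1⟩ := pair2_walk (rinc H) (1, 1) (1, 0) (some p.2) P (cp 0 false p.1 p.2)
    (cp 2 false p.1 p.2) (cp 2 true p.1 p.2) (cp 0 true p.1 p.2) (by simp)
    (hn _ _) (hn _ _) (hn _ _) (hn _ _) _ hk _ _ _ _
    (pv_cp_right H _ _ _ _ hadj) (pv_cp_right H _ _ _ _ hadj) (pv_cp_right H _ _ _ _ hadj)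
    (pv_cp_right H _ _ _ _ hadj) (1, 0) rfl (by decide) (by decide)
  obtain ⟨w2, k2⟩ := pair2_walk (rinc H) (1, 1) (1, 0) (some p.2) _ (cp 1 false p.1 p.2)
    (cp 3 false p.1 p.2) (cp 3 true p.1 p.2) (cp 1 true p.1 p.2) (by simp)
    (by simp [hn]) (by simp [hn]) (by simp [hn]) (by simp [hn]) _ k1 _ _ _ _
    (pv_cp_right H _ _ _ _ hadj) (pv_cp_right H _ _ _ _ hadj) (pv_cp_right H _ _ _ _ hadj)
    (pv_cp_right H _ _ _ _ hadj) (1, 0) rfl (by decide) (by decide)
  rw [← pset_union p P 2 1 (Or.inr ⟨rfl, rfl⟩)]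
  exact w1.append w2

/-! ### Invariants -/

/-- Invariant of the first stage (vertex gadgets). -/
def Inv1 (P : Finset (Col U)) : Prop :=
  kk (rinc H) P (Sum.inl false) (Sum.inl false) = 1 ∧
  kk (rinc H) P (Sum.inl false) (Sum.inl true) = 1 ∧
  kk (rinc H) P (Sum.inl true) (Sum.inl true) = 1 ∧
  ∀ a, kk (rinc H) P (Sum.inl false) (Sum.inr a) = 0 ∧
    kk (rinc H) P (Sum.inl true) (Sum.inr a) = 0 ∧
    kk (rinc H) P (Sum.inr a) (Sum.inr a) = if cv 0 false a ∈ P then 1 else 0

/-- Invariant of the second stage (pair gadgets). -/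
def Inv2 (P : Finset (Col U)) : Prop :=
  kk (rinc H) P (Sum.inl false) (Sum.inl false) = 1 ∧
  kk (rinc H) P (Sum.inl false) (Sum.inl true) = 1 ∧
  kk (rinc H) P (Sum.inl true) (Sum.inl true) = 1 ∧
  ∀ a, kk (rinc H) P (Sum.inl false) (Sum.inr a) = 0 ∧
    kk (rinc H) P (Sum.inl true) (Sum.inr a) = 0 ∧
    kk (rinc H) P (Sum.inr a) (Sum.inr a) = 1

theorem kv_none_of_inv1 {P : Finset (Col U)} (h : Inv1 H P) :
    kv (rinc H) none P = (1, 1, 1, 0, 0, 0) := by
  obtain ⟨h1, h2, h3, _⟩ := h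
  unfold kv
  rw [h1, h2, h3]
  rfl

theorem kv_none_of_inv2 {P : Finset (Col U)} (h : Inv2 H P) :
    kv (rinc H) none P = (1, 1, 1, 0, 0, 0) := by
  obtain ⟨h1, h2, h3, _⟩ := h
  unfold kv
  rw [h1, h2, h3]
  rfl

theorem kv_some_of_inv2 {P : Finset (Col U)} (h : Inv2 H P) (a : U) :
    kv (rinc H) (some a) P = (1, 1, 1, 0, 0, 1) := by
  obtain ⟨h1, h2, h3, h4⟩ := h
  unfold kv
  simp only [aval]
  rw [h1, h2, h3, (h4 a).1, (h4 a).2.1, (h4 a).2.2]

theorem inv2_pset {P : Finset (Col U)} (h : Inv2 H P) (p : U × U) (hd : Disjoint P (pset p)) :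
    Inv2 H (P ∪ pset p) := by
  unfold Inv2
  simp only [kk_pset H p P hd]
  exact h

theorem sum_vset (b : U) (f : Col U → ZMod 2) :
    ∑ c ∈ vset b, f c = f (cv 0 false b) + (f (cv 1 false b) + (f (cv 2 false b) +
      (f (cv 0 true b) + (f (cv 1 true b) + f (cv 2 true b))))) := by
  unfold vset
  rw [Finset.sum_insert (by simp), Finset.sum_insert (by simp), Finset.sum_insert (by simp),
      Finset.sum_insert (by simp), Finset.sum_insert (by simp), Finset.sum_singleton]

theorem inv1_vset {P : Finset (Col U)} (h : Inv1 H P) (b : U) (hd : Disjoint P (vset b)) :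
    Inv1 H (P ∪ vset b) := by
  have hkk : ∀ r r', kk (rinc H) (P ∪ vset b) r r' = kk (rinc H) P r r' +
      ∑ c ∈ vset b, im (rinc H) r c * im (rinc H) r' c := by
    intro r r'
    unfold kk
    rw [Finset.sum_union hd]
  obtain ⟨h1, h2, h3, h4⟩ := h
  refine ⟨?_, ?_, ?_, ?_⟩
  · rw [hkk, h1, sum_vset]
    simp only [im_f_cv]
    decide
  · rw [hkk, h2, sum_vset]
    simp only [im_f_cv, im_g_cv]
    decide
  · rw [hkk, h3, sum_vset]
    simp only [im_g_cv]
    decide
  · intro a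
    obtain ⟨h5, h6, h7⟩ := h4 a
    have hm : cv 0 false a ∈ P ∪ vset b ↔ cv 0 false a ∈ P ∨ a = b := by
      rw [Finset.mem_union, mem_vset]
      constructor
      · rintro (h | ⟨i, e, h⟩)
        · exact Or.inl h
        · right
          simp only [Sum.inr.injEq, Sum.inl.injEq, Prod.mk.injEq] at h
          exact h.2.2
      · rintro (h | h)
        · exact Or.inl h
        · exact Or.inr ⟨0, false, by rw [h]⟩
    refine ⟨?_, ?_, ?_⟩
    · rw [hkk, h5, sum_vset]
      simp only [im_f_cv, im_r_cv]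
      by_cases hab : a = b
      · simp [hab]; decide
      · simp [hab]
    · rw [hkk, h6, sum_vset]
      simp only [im_g_cv, im_r_cv]
      by_cases hab : a = b
      · simp [hab]; decide
      · simp [hab]
    · rw [hkk, h7, sum_vset]
      simp only [im_r_cv]
      by_cases hab : a = b
      · subst hab
        have hnot : cv 0 false a ∉ P := by
          intro h
          exact (Finset.disjoint_left.1 hd) h ((mem_vset a _).2 ⟨0, false, rfl⟩)
        rw [if_neg hnot, if_pos (hm.2 (Or.inr rfl))]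
        simp; decide
      · by_cases hP : cv 0 false a ∈ P
        · rw [if_pos hP, if_pos (hm.2 (Or.inl hP))]
          simp [hab]
        · rw [if_neg hP, if_neg (fun h => (hm.1 h).elim hP hab)]
          simp [hab]

/-! ### Edge blocks -/

variable (D : Finset U)

/-- The row responsible for a pair. -/
def resp (p : U × U) : U := if p.1 ∈ D then p.1 else p.2

/-- The word of an adjacent pair. -/
def ewordD (p : U × U) : List ((Bool ⊕ U) ⊕ Col U) :=
  if p.1 ∈ D then eword 1 2 p else eword 2 1 p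

open Classical in
/-- The adjacent pairs for which `a` is responsible. -/
noncomputable def edgesAt (a : U) : Finset (U × U) :=
  Finset.univ.filter (fun p => H.Adj p.1 p.2 ∧ resp D p = a)

open Classical in
/-- The nonadjacent pairs. -/
noncomputable def nonadj : Finset (U × U) := Finset.univ.filter (fun p => ¬ H.Adj p.1 p.2)

theorem ewalkD (a : U) (p : U × U) (hp : H.Adj p.1 p.2 ∧ resp D p = a) (P : Finset (Col U))
    (hP : Inv2 H P) (hd : Disjoint P (pset p)) :
    Walk (redG H) (axv (rvs (1, 1) (1, 0) (some a)) ∅ P) (ewordD D p)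
      (axv (rvs (1, 1) (1, 0) (some a)) ∅ (P ∪ pset p)) := by
  obtain ⟨hadj, hr⟩ := hp
  unfold resp at hr
  unfold ewordD
  split_ifs at hr ⊢ with h1
  · subst hr
    exact ewalk_left H p hadj P (kv_some_of_inv2 H hP _) hd
  · subst hr
    exact ewalk_right H p hadj P (kv_some_of_inv2 H hP _) hd

/-- The word of the block of the row `a`. -/
noncomputable def bword (a : U) : List ((Bool ⊕ U) ⊕ Col U) :=
  [Sum.inl (Sum.inr a)] ++ (edgesAt H D a).toList.flatMap (ewordD D) ++ [Sum.inl (Sum.inr a)]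

theorem bwalk (a : U) (P : Finset (Col U)) (hP : Inv2 H P)
    (hd : Disjoint P ((edgesAt H D a).biUnion pset)) :
    Walk (redG H) (axv (rvs (1, 1) (1, 0) none) ∅ P) (bword H D a)
      (axv (rvs (1, 1) (1, 0) none) ∅ (P ∪ (edgesAt H D a).biUnion pset)) ∧
    Inv2 H (P ∪ (edgesAt H D a).biUnion pset) := by
  classical
  obtain ⟨w, hI⟩ := list_walk (rinc H) (rvs (1, 1) (1, 0) (some a)) pset (ewordD D) (Inv2 H)
    (fun p => H.Adj p.1 p.2 ∧ resp D p = a) pset_disj
    (fun p P hp hP hd => ⟨ewalkD H D a p hp P hP hd, inv2_pset H hP p hd⟩)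
    (edgesAt H D a).toList (Finset.nodup_toList _)
    (fun p hp => by
      rw [Finset.mem_toList, edgesAt, Finset.mem_filter] at hp
      exact hp.2) P hP
    (fun p hp => by
      rw [Finset.mem_toList] at hp
      exact (Finset.disjoint_biUnion_right _ _ _).1 hd p hp)
  rw [Finset.toList_toFinset] at w hI
  have w1 := on_walk (rinc H) (1, 1) (1, 0) a P (cb 0) (by
    rw [kv_some_of_inv2 H hP]
    decide)
  have w2 := off_walk (rinc H) (1, 1) (1, 0) a (P ∪ (edgesAt H D a).biUnion pset) (cb 0) (by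
    rw [kv_none_of_inv2 H hI]
    decide)
  exact ⟨(w1.append w).append w2, hI⟩

end Pool.Agent.H40.CR
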