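import Mathlib
import Pool.Agent.H40.CR.Upper

/-!
# The upper bound for the reduction graph, assembled
-/

namespace Pool.Agent.H40.CR

variable {U : Type*} [Fintype U] [DecidableEq U] (H : SimpleGraph U) (D : Finset U)

omit [Fintype U] [DecidableEq U] in
theorem pv_cb (i : Fin 8) : pv (rinc H) none (cb i) =
    (if i = 0 ∨ i = 1 ∨ i = 2 ∨ i = 5 ∨ i = 6 then 1 else 0,
      if i = 0 ∨ i = 1 ∨ i = 3 ∨ i = 4 ∨ i = 7 then 1 else 0, 0) := by
  unfold pv
  rw [im_f_cb, im_g_cb]
  rfl

omit [DecidableEq U] in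
theorem kk_empty (r r' : Bool ⊕ U) : kk (rinc H) ∅ r r' = 0 := by
  unfold kk; simp

/-- The start of the string. -/
def startWord : List ((Bool ⊕ U) ⊕ Col U) :=
  [Sum.inl (Sum.inl false)] ++ [Sum.inr (cb 0)] ++ [Sum.inl (Sum.inl true)] ++ [Sum.inr (cb 0)]

theorem start_walk :
    Walk (redG H) (fun _ => (0, 1)) startWord (axv (rvs (1, 1) (1, 0) none) ∅ {cb 0}) := by
  have e0 : (fun _ => (0, 1) : (Bool ⊕ U) ⊕ Col U → ZMod 2 × ZMod 2) =
      axv (rvs (0, 1) (0, 1) none) (mid false (cb 0) false (cb 0)) ∅ := by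
    funext v
    rcases v with ((_ | _) | u) | c <;> simp [axv, rvs, mid]
  have k0 : kv (rinc H) none (∅ : Finset (Col U)) = (0, 0, 0, 0, 0, 0) := by
    unfold kv
    simp only [kk_empty]
    rfl
  have w1 := row_walk (rinc H) (0, 1) (0, 1) (1, 1) (0, 1) false (∅ : Finset (Col U)) false (cb 0)
    (by simp) (by decide) (by decide) rfl (by
      rw [k0, pv_cb]
      decide)
  rw [← e0, mid_ff] at w1
  have w2 := colin_walk (rinc H) (1, 1) (0, 1) (∅ : Finset (Col U)) (cb 0) (by simp) (by
      rw [k0, pv_cb]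
      decide)
  have w3 := row_walk (rinc H) (1, 1) (0, 1) (1, 1) (1, 0) true (∅ : Finset (Col U)) true (cb 0)
    (by simp) (by decide) (by decide) rfl (by
      rw [k0, pv_cb]
      decide)
  rw [mid_tf] at w3
  have w4 := colout_walk (rinc H) (1, 1) (1, 0) (∅ : Finset (Col U)) (cb 0) (by simp) (by
      rw [k0, pv_cb]
      decide)
  exact ((w1.append w2).append w3).append w4

theorem inv1_start : Inv1 H {cb 0} := by
  have h : ∀ r r', kk (rinc H) {cb 0} r r' = im (rinc H) r (cb 0) * im (rinc H) r' (cb 0) := by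
    intro r r'
    unfold kk
    rw [Finset.sum_singleton]
  refine ⟨?_, ?_, ?_, ?_⟩
  · rw [h, im_f_cb]; simp
  · rw [h, im_f_cb, im_g_cb]; simp
  · rw [h, im_g_cb]; simp
  · intro a
    refine ⟨?_, ?_, ?_⟩
    · rw [h, im_r_cb]; simp
    · rw [h, im_r_cb]; simp
    · rw [h, im_r_cb]; simp

/-- The tail of the string. -/
def tailWord : List ((Bool ⊕ U) ⊕ Col U) :=
  pw (cb 2) (cb 3) ++ pw (cb 4) (cb 5) ++ pw (cb 6) (cb 7) ++
    ([Sum.inr (cb 1)] ++ [Sum.inl (Sum.inl false)] ++ [Sum.inr (cb 1)] ++
      [Sum.inl (Sum.inl true)])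

theorem tail_walk (P : Finset (Col U)) (hk : kv (rinc H) none P = (1, 1, 1, 0, 0, 0))
    (hn : ∀ i : Fin 8, i ≠ 0 → cb i ∉ P) :
    Walk (redG H) (axv (rvs (1, 1) (1, 0) none) ∅ P) tailWord
      (axv (rvs (0, 1) (0, 1) none) ∅ (insert (cb 1) (insert (cb 7) (insert (cb 6)
        (insert (cb 5) (insert (cb 4) (insert (cb 3) (insert (cb 2) P)))))))) := by
  obtain ⟨w1, k1⟩ := pair2_walk (rinc H) (1, 1) (1, 0) none P (cb 2) (cb 3) (cb 4) (cb 5)
    (by simp) (hn _ (by decide)) (hn _ (by decide)) (hn _ (by decide)) (hn _ (by decide)) _ hk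
    _ _ _ _ (pv_cb H _) (pv_cb H _) (pv_cb H _) (pv_cb H _) (0, 1) rfl (by decide) (by decide)
  have m6 : cb 6 ∉ insert (cb 5) (insert (cb 4) (insert (cb 3) (insert (cb 2) P))) := by
    simp [hn]
  have m7 : cb 7 ∉ insert (cb 5) (insert (cb 4) (insert (cb 3) (insert (cb 2) P))) := by
    simp [hn]
  have m7' : cb 7 ∉ insert (cb 6) (insert (cb 5) (insert (cb 4) (insert (cb 3)
      (insert (cb 2) P)))) := by
    simp [hn]
  have m1 : cb 1 ∉ insert (cb 7) (insert (cb 6) (insert (cb 5) (insert (cb 4) (insert (cb 3)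
      (insert (cb 2) P))))) := by
    simp [hn]
  have w2 := pair_walk (rinc H) (1, 1) (1, 0) none _ (cb 6) (cb 7) (by simp) m6 m7
    (by
      rw [k1, pv_cb, pv_cb]
      show PairOK (1, 1) (1, 0) (0, 1) _ _ _
      decide)
  have k2 : kv (rinc H) none (insert (cb 7) (insert (cb 6) (insert (cb 5) (insert (cb 4)
      (insert (cb 3) (insert (cb 2) P)))))) = (0, 1, 0, 0, 0, 0) := by
    rw [kv_insert _ _ _ _ m7', kv_insert _ _ _ _ m6, k1, pv_cb, pv_cb]
    decide
  have w3 := colin_walk (rinc H) (1, 1) (1, 0) _ (cb 1) m1 (by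
      rw [k2, pv_cb]
      decide)
  have w4 := row_walk (rinc H) (1, 1) (1, 0) (0, 1) (1, 0) false _ true (cb 1)
    (fun _ => m1) (by decide) (by decide) rfl (by
      rw [k2, pv_cb]
      decide)
  rw [mid_tf] at w4
  have w5 := colout_walk (rinc H) (0, 1) (1, 0) _ (cb 1) m1 (by
      rw [k2, pv_cb]
      decide)
  have w6 := row_walk (rinc H) (0, 1) (1, 0) (0, 1) (0, 1) true
    (insert (cb 1) (insert (cb 7) (insert (cb 6) (insert (cb 5) (insert (cb 4)
      (insert (cb 3) (insert (cb 2) P))))))) false (cb 1)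
    (by simp) (by decide) (by decide) rfl (by
      rw [kv_insert _ _ _ _ m1, k2, pv_cb]
      decide)
  rw [mid_ff] at w6
  exact (w1.append w2).append (((w3.append w4).append w5).append w6)

/-- The processed set after the first stage. -/
def P1 : Finset (Col U) := {cb 0} ∪ Finset.univ.biUnion vset

theorem stage1 : Walk (redG H) (axv (rvs (1, 1) (1, 0) none) ∅ {cb 0})
      ((Finset.univ : Finset U).toList.flatMap vword)
      (axv (rvs (1, 1) (1, 0) none) ∅ P1) ∧ Inv2 H P1 := by
  classical
  obtain ⟨w, hI⟩ := list_walk (rinc H) (rvs (1, 1) (1, 0) none) vset vword (Inv1 H)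
    (fun _ => True) vset_disj
    (fun b P _ hP hd => ⟨(vwalk H b P (kv_none_of_inv1 H hP) hd).1, inv1_vset H hP b hd⟩)
    (Finset.univ : Finset U).toList (Finset.nodup_toList _) (fun _ _ => trivial) {cb 0}
    (inv1_start H) (by
      intro b _
      rw [Finset.disjoint_singleton_left, mem_vset]
      rintro ⟨i, e, h⟩
      simp at h)
  rw [Finset.toList_toFinset] at w hI
  refine ⟨w, ?_⟩
  obtain ⟨h1, h2, h3, h4⟩ := hI
  refine ⟨h1, h2, h3, ?_⟩
  intro a
  obtain ⟨h5, h6, h7⟩ := h4 a
  refine ⟨h5, h6, ?_⟩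
  show kk (rinc H) ({cb 0} ∪ Finset.univ.biUnion vset) _ _ = 1
  rw [h7, if_pos]
  rw [Finset.mem_union, Finset.mem_biUnion]
  exact Or.inr ⟨a, Finset.mem_univ _, (mem_vset a _).2 ⟨0, false, rfl⟩⟩

/-- The processed set after the second stage. -/
noncomputable def P2 : Finset (Col U) := P1 ∪ (nonadj H).biUnion pset

omit [Fintype U] in
theorem P1_disj_pset [Fintype U] (p : U × U) : Disjoint P1 (pset p) := by
  rw [P1, Finset.disjoint_union_left]
  constructor
  · rw [Finset.disjoint_singleton_left, mem_pset]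
    rintro ⟨i, e, h⟩
    simp at h
  · rw [Finset.disjoint_left]
    intro c h1 h2
    rw [Finset.mem_biUnion] at h1
    obtain ⟨b, _, hb⟩ := h1
    rw [mem_vset] at hb
    rw [mem_pset] at h2
    obtain ⟨i, e, rfl⟩ := hb
    obtain ⟨t, j, h⟩ := h2
    simp at h

theorem stage2 : Walk (redG H) (axv (rvs (1, 1) (1, 0) none) ∅ P1)
      ((nonadj H).toList.flatMap nword)
      (axv (rvs (1, 1) (1, 0) none) ∅ (P2 H)) ∧ Inv2 H (P2 H) := by
  classical
  obtain ⟨w, hI⟩ := list_walk (rinc H) (rvs (1, 1) (1, 0) none) pset nword (Inv2 H)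
    (fun p => ¬ H.Adj p.1 p.2) pset_disj
    (fun p P hp hP hd => ⟨nwalk H p hp P (kv_none_of_inv2 H hP) hd, inv2_pset H hP p hd⟩)
    (nonadj H).toList (Finset.nodup_toList _)
    (fun p hp => by
      rw [Finset.mem_toList, nonadj, Finset.mem_filter] at hp
      exact hp.2) P1 (stage1 H).2
    (fun p _ => P1_disj_pset p)
  rw [Finset.toList_toFinset] at w hI
  exact ⟨w, hI⟩

/-- The processed set after the third stage. -/
noncomputable def P3 : Finset (Col U) := P2 H ∪ D.biUnion fun a => (edgesAt H D a).biUnion pset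

theorem stage3 : Walk (redG H) (axv (rvs (1, 1) (1, 0) none) ∅ (P2 H))
      (D.toList.flatMap (bword H D))
      (axv (rvs (1, 1) (1, 0) none) ∅ (P3 H D)) ∧ Inv2 H (P3 H D) := by
  classical
  obtain ⟨w, hI⟩ := list_walk (rinc H) (rvs (1, 1) (1, 0) none)
    (fun a => (edgesAt H D a).biUnion pset) (bword H D) (Inv2 H)
    (fun _ => True)
    (by
      intro a a' haa
      rw [Finset.disjoint_biUnion_left]
      intro p hp
      rw [Finset.disjoint_biUnion_right]
      intro p' hp'
      apply pset_disj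
      rintro rfl
      rw [edgesAt, Finset.mem_filter] at hp hp'
      exact haa (hp.2.2.symm.trans hp'.2.2))
    (fun a P _ hP hd => bwalk H D a P hP hd)
    D.toList (Finset.nodup_toList _) (fun _ _ => trivial) (P2 H) (stage2 H).2
    (by
      intro a _
      rw [Finset.disjoint_biUnion_right]
      intro p hp
      rw [P2, Finset.disjoint_union_left]
      refine ⟨P1_disj_pset p, ?_⟩
      rw [Finset.disjoint_biUnion_left]
      intro p' hp'
      apply pset_disj
      rintro rfl
      rw [edgesAt, Finset.mem_filter] at hp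
      rw [nonadj, Finset.mem_filter] at hp'
      exact hp'.2 hp.2.1)
  rw [Finset.toList_toFinset] at w hI
  exact ⟨w, hI⟩

/-- The whole string. -/
noncomputable def fullWord : List ((Bool ⊕ U) ⊕ Col U) :=
  startWord ++ ((Finset.univ : Finset U).toList.flatMap vword ++
    ((nonadj H).toList.flatMap nword ++ (D.toList.flatMap (bword H D) ++ tailWord)))

theorem not_mem_P3 (i : Fin 8) (hi : i ≠ 0) : cb i ∉ P3 H D := by
  classical
  rw [P3, P2, P1]
  simp only [Finset.mem_union, Finset.mem_biUnion, Finset.mem_singleton, mem_vset, mem_pset]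
  rintro (((h | ⟨b, _, i, e, h⟩) | ⟨p, _, t, j, h⟩) | ⟨a, _, p, _, t, j, h⟩)
  · exact hi (Sum.inl_injective h)
  · simp at h
  · simp at h
  · simp at h

theorem all_processed (hD : ∀ u v, H.Adj u v → u ∈ D ∨ v ∈ D) :
    insert (cb 1) (insert (cb 7) (insert (cb 6)
        (insert (cb 5) (insert (cb 4) (insert (cb 3) (insert (cb 2) (P3 H D)))))))
      = (Finset.univ : Finset (Col U)) := by
  classical
  rw [Finset.eq_univ_iff_forall]
  rintro (i | (⟨i, e, b⟩ | ⟨t, j, u, v⟩))
  · have h0 : (Sum.inl 0 : Col U) ∈ P3 H D := by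
      rw [P3, P2, P1]
      simp
    fin_cases i <;> simp [h0]
  · have h0 : (Sum.inr (Sum.inl (i, e, b)) : Col U) ∈ P3 H D := by
      rw [P3, P2, P1]
      simp only [Finset.mem_union, Finset.mem_biUnion, Finset.mem_singleton, mem_vset]
      left; left; right
      exact ⟨b, Finset.mem_univ _, i, e, rfl⟩
    simp [h0]
  · have h0 : (Sum.inr (Sum.inr (t, j, u, v)) : Col U) ∈ P3 H D := by
      rw [P3, P2]
      simp only [Finset.mem_union, Finset.mem_biUnion, mem_pset]
      by_cases h : H.Adj u v
      · right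
        refine ⟨resp D (u, v), ?_, (u, v), ?_, t, j, rfl⟩
        · unfold resp
          split_ifs with h1
          · exact h1
          · exact (hD u v h).resolve_left h1
        · rw [edgesAt, Finset.mem_filter]
          exact ⟨Finset.mem_univ _, h, rfl⟩
      · left; right
        refine ⟨(u, v), ?_, t, j, rfl⟩
        rw [nonadj, Finset.mem_filter]
        exact ⟨Finset.mem_univ _, h⟩
    simp [h0]

theorem full_walk (hD : ∀ u v, H.Adj u v → u ∈ D ∨ v ∈ D) :
    Walk (redG H) (fun _ => (0, 1)) (fullWord H D)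
      (axv (rvs (0, 1) (0, 1) none) ∅ Finset.univ) := by
  rw [← all_processed H D hD]
  exact (start_walk H).append ((stage1 H).1.append ((stage2 H).1.append
    ((stage3 H D).1.append (tail_walk H (P3 H D) (kv_none_of_inv2 H (stage3 H D).2)
      (not_mem_P3 H D)))))

/-! ### Parity and length -/

/-- The number of occurrences. -/
def cnt {α : Type*} [DecidableEq α] (v : α) (l : List α) : ℕ := l.count v

theorem cnt_append {α : Type*} [DecidableEq α] (v : α) (l l' : List α) :
    cnt v (l ++ l') = cnt v l + cnt v l' := List.count_append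

theorem even_pw (c1 c2 : Col U) (v : (Bool ⊕ U) ⊕ Col U) : Even (cnt v (pw c1 c2)) := by
  unfold cnt pw
  simp only [List.count_cons, List.count_nil]
  split_ifs <;> decide

theorem even_append {α : Type*} [DecidableEq α] {l l' : List α} {v : α} (h : Even (cnt v l))
    (h' : Even (cnt v l')) : Even (cnt v (l ++ l')) := by
  rw [cnt_append]; exact h.add h'

theorem even_flatMap {α β : Type*} [DecidableEq α] (l : List β) (f : β → List α) (v : α)
    (h : ∀ b ∈ l, Even (cnt v (f b))) : Even (cnt v (l.flatMap f)) := by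
  induction l with
  | nil => simp [cnt]
  | cons b l ih =>
    rw [List.flatMap_cons]
    exact even_append (h b (by simp)) (ih fun c hc => h c (List.mem_cons_of_mem _ hc))

theorem even_vword (b : U) (v : (Bool ⊕ U) ⊕ Col U) : Even (cnt v (vword b)) :=
  even_append (even_append (even_pw _ _ _) (even_pw _ _ _)) (even_pw _ _ _)

theorem even_nword (p : U × U) (v : (Bool ⊕ U) ⊕ Col U) : Even (cnt v (nword p)) :=
  even_append (even_append (even_pw _ _ _) (even_pw _ _ _))
    (even_append (even_pw _ _ _) (even_pw _ _ _))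

theorem even_eword (x y : Fin 4) (p : U × U) (v : (Bool ⊕ U) ⊕ Col U) :
    Even (cnt v (eword x y p)) :=
  even_append (even_append (even_pw _ _ _) (even_pw _ _ _))
    (even_append (even_pw _ _ _) (even_pw _ _ _))

theorem even_ewordD (p : U × U) (v : (Bool ⊕ U) ⊕ Col U) :
    Even (cnt v (ewordD D p)) := by
  unfold ewordD
  split_ifs
  · exact even_eword _ _ _ _
  · exact even_eword _ _ _ _

theorem even_bword (a : U) (v : (Bool ⊕ U) ⊕ Col U) : Even (cnt v (bword H D a)) := by
  unfold bword
  rw [cnt_append, cnt_append]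
  have h := even_flatMap (edgesAt H D a).toList (ewordD D) v (fun p _ => even_ewordD D p v)
  have h2 : ∀ x y : ℕ, Even y → Even (x + y + x) := by
    intro x y hy
    have : x + y + x = (x + x) + y := by ring
    rw [this]
    exact (Even.add_self x).add hy
  exact h2 _ _ h

theorem even_fullWord (v : (Bool ⊕ U) ⊕ Col U) : Even (cnt v (fullWord H D)) := by
  unfold fullWord startWord tailWord
  simp only [cnt_append]
  have h1 := even_flatMap (Finset.univ : Finset U).toList vword v (fun b _ => even_vword b v)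
  have h2 := even_flatMap (nonadj H).toList nword v (fun b _ => even_nword b v)
  have h3 := even_flatMap D.toList (bword H D) v (fun b _ => even_bword H D b v)
  have h4 := even_pw (U := U) (cb 2) (cb 3) v
  have h5 := even_pw (U := U) (cb 4) (cb 5) v
  have h6 := even_pw (U := U) (cb 6) (cb 7) v
  rw [Nat.even_iff] at *
  omega

theorem length_flatMap_const {α β : Type*} (l : List β) (f : β → List α) (n : ℕ)
    (h : ∀ b ∈ l, (f b).length = n) : (l.flatMap f).length = n * l.length := by
  induction l with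
  | nil => simp
  | cons b l ih =>
    rw [List.flatMap_cons, List.length_append, h b (by simp),
      ih fun c hc => h c (List.mem_cons_of_mem _ hc), List.length_cons]
    ring

theorem length_bword (a : U) : (bword H D a).length = 2 + 16 * (edgesAt H D a).card := by
  unfold bword
  rw [List.length_append, List.length_append, length_flatMap_const _ _ 16, Finset.length_toList]
  · simp; ring
  · intro p _
    unfold ewordD
    split_ifs <;> rfl

theorem length_edge (hD : ∀ u v, H.Adj u v → u ∈ D ∨ v ∈ D) :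
    (D.toList.flatMap (bword H D)).length + 16 * (nonadj H).card =
      2 * D.card + 16 * (Fintype.card U) ^ 2 := by
  classical
  have h1 : (D.toList.flatMap (bword H D)).length = ∑ a ∈ D, (2 + 16 * (edgesAt H D a).card) := by
    rw [List.length_flatMap]
    simp only [length_bword]
    exact Finset.sum_map_toList D _
  rw [h1, Finset.sum_add_distrib, Finset.sum_const, smul_eq_mul, ← Finset.mul_sum]
  have h2 : ∑ a ∈ D, (edgesAt H D a).card =
      ((Finset.univ : Finset (U × U)).filter (fun p => H.Adj p.1 p.2)).card := by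
    rw [← Finset.card_biUnion]
    · congr 1
      ext p
      simp only [Finset.mem_biUnion, edgesAt, Finset.mem_filter, Finset.mem_univ, true_and]
      constructor
      · rintro ⟨a, _, h, _⟩; exact h
      · intro h
        refine ⟨resp D p, ?_, h, rfl⟩
        unfold resp
        split_ifs with h1
        · exact h1
        · exact (hD _ _ h).resolve_left h1
    · intro a _ b _ hab
      rw [Function.onFun, Finset.disjoint_left]
      intro p h1 h2
      rw [edgesAt, Finset.mem_filter] at h1 h2
      exact hab (h1.2.2.symm.trans h2.2.2)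
  have h3 : ((Finset.univ : Finset (U × U)).filter (fun p => H.Adj p.1 p.2)).card +
      (nonadj H).card = (Fintype.card U) ^ 2 := by
    unfold nonadj
    rw [Finset.card_filter_add_card_filter_not, Finset.card_univ, Fintype.card_prod, sq]
  rw [h2]
  rw [← h3]
  ring

theorem length_fullWord (hD : ∀ u v, H.Adj u v → u ∈ D ∨ v ∈ D) :
    (fullWord H D).length = 16 * (Fintype.card U) ^ 2 + 12 * Fintype.card U + 20 + 2 * D.card := by
  unfold fullWord
  simp only [List.length_append]
  have h1 := length_flatMap_const (Finset.univ : Finset U).toList vword 12 (fun b _ => rfl)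
  have h2 := length_flatMap_const (nonadj H).toList nword 16 (fun b _ => rfl)
  rw [Finset.length_toList] at h1 h2
  rw [Finset.card_univ] at h1
  have h3 := length_edge H D hD
  have h4 : (startWord : List ((Bool ⊕ U) ⊕ Col U)).length = 4 := rfl
  have h5 : (tailWord : List ((Bool ⊕ U) ⊕ Col U)).length = 16 := rfl
  omega

theorem upper_bound (hD : ∀ u v, H.Adj u v → u ∈ D ∨ v ∈ D) :
    Reverses (redG H) (fullWord H D) := by
  apply reverses_of_walk (full_walk H D hD) sym (presents_sym (rinc H) (orth H)) det_sym sg_sym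
  · rintro (r | c)
    · rcases r with (_ | _) | u
      · simp [axv, rvs, sym, Fr.fst, Fr.snd]
      · simp [axv, rvs, sym, Fr.fst, Fr.snd]
      · simp [axv, rvs, sym, Fr.fst, Fr.snd]
    · simp [axv, sym, Fr.fst, Fr.snd]
      decide
  · exact even_fullWord H D

end Pool.Agent.H40.CR
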