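import Mathlib
import Pool.Agent.H40.CR.Upper2

/-!
# The lower bound for the reduction graph
-/

namespace Pool.Agent.H40.CR

theorem cnt_pos {V : Type*} [DecidableEq V] {v : V} {w : List V} (h : v ∈ w) : 0 < cnt v w :=
  List.count_pos_iff.2 h

theorem sum_cnt {V : Type*} [Fintype V] [DecidableEq V] (w : List V) :
    ∑ v, cnt v w = w.length := by
  induction w with
  | nil => simp [cnt]
  | cons a w ih =>
    have h : ∀ v, cnt v (a :: w) = cnt v w + if v = a then 1 else 0 := by
      intro v
      unfold cnt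
      rw [List.count_cons]
      congr 1
      by_cases h : v = a
      · subst h; simp
      · have h' : ¬ a = v := fun h' => h h'.symm
        simp [h, h']
    simp only [h, Finset.sum_add_distrib, ih, List.length_cons, Finset.sum_ite_eq',
      Finset.mem_univ, if_true]

variable {U : Type*} [Fintype U] [DecidableEq U] (H : SimpleGraph U)

omit [Fintype U] [DecidableEq U] in
theorem redG_col_row (r : Bool ⊕ U) (c : Col U) :
    (redG H).Adj (Sum.inr c) (Sum.inl r) ↔ rinc H r c := Iff.rfl

omit [Fintype U] [DecidableEq U] in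
theorem redG_row_col (r : Bool ⊕ U) (c : Col U) :
    (redG H).Adj (Sum.inl r) (Sum.inr c) ↔ rinc H r c := Iff.rfl

omit [Fintype U] [DecidableEq U] in
theorem redG_col_col (c c' : Col U) : ¬ (redG H).Adj (Sum.inr c) (Sum.inr c') := fun h => h

/-- Every row has two columns whose only common neighbour is this row. -/
theorem row_pair (r : Bool ⊕ U) : ∃ c c' : Col U, c ≠ c' ∧
    ∀ r', rinc H r' c ∧ rinc H r' c' ↔ r' = r := by
  rcases r with (_ | _) | a
  · refine ⟨cb 2, cb 5, by simp, ?_⟩
    rintro ((_ | _) | u)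
    · simp [rinc]
    · simp [rinc]
    · simp [rinc]
  · refine ⟨cb 3, cb 4, by simp, ?_⟩
    rintro ((_ | _) | u)
    · simp [rinc]
    · simp [rinc]
    · simp [rinc]
  · refine ⟨cv 0 true a, cv 1 true a, by simp, ?_⟩
    rintro ((_ | _) | u)
    · simp [rinc]
    · simp [rinc]
    · simp [rinc]

theorem row_common (r : Bool ⊕ U) : ∃ c c' : Col U,
    (Sum.inr c : (Bool ⊕ U) ⊕ Col U) ≠ Sum.inr c' ∧
    ∀ x, (redG H).Adj (Sum.inr c') x ∧ (redG H).Adj x (Sum.inr c) ↔ x = Sum.inl r := by
  obtain ⟨c, c', h1, h2⟩ := row_pair H r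
  refine ⟨c, c', fun h => h1 (Sum.inr_injective h), ?_⟩
  rintro (r' | c'')
  · rw [redG_col_row, redG_row_col, and_comm, h2]
    constructor
    · rintro rfl; rfl
    · intro h; exact Sum.inl_injective h
  · constructor
    · rintro ⟨h, _⟩
      exact absurd h (redG_col_col H _ _)
    · intro h; simp at h

variable {w : List ((Bool ⊕ U) ⊕ Col U)} (hw : Reverses (redG H) w)

include hw

theorem row_cnt (r : Bool ⊕ U) : cnt (Sum.inl r) w ≠ 1 := by
  obtain ⟨c, c', h1, h2⟩ := row_common H r
  exact row_count_ne_one hw h1 (redG_col_col H _ _) h2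

theorem row_q (r : Bool ⊕ U) : (frames (redG H) w (Sum.inl r)).q = 0 := by
  obtain ⟨c, c', h1, h2⟩ := row_common H r
  rw [reverses_iff] at hw
  exact q_eq_zero hw.1 h1 (redG_col_col H _ _) h2

theorem col_r (c : Col U) : (frames (redG H) w (Sum.inr c)).r = 0 := by
  apply r_eq_zero ((reverses_iff _ _).1 hw).1
  rintro (r | c') h
  · exact row_q H hw r
  · exact absurd h (redG_col_col H _ _)

theorem col_cnt (c : Col U) : 2 ≤ cnt (Sum.inr c) w := two_le_count_of_r hw (col_r H hw c)

theorem col_cnt' (c : Col U) (hc : ∀ r, rinc H r c → Sum.inl r ∉ w) :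
    3 ≤ cnt (Sum.inr c) w := by
  apply three_le_count_of_r hw (col_r H hw c)
  rintro (r | c') ha h
  · exact hc r h ha
  · exact redG_col_col H _ _ h

open Classical in
/-- From a reversing string we get a vertex cover. -/
theorem lower_bound : ∃ S : Finset U, (∀ u v, H.Adj u v → u ∈ S ∨ v ∈ S) ∧
    16 * (Fintype.card U) ^ 2 + 12 * Fintype.card U + 20 + 2 * S.card ≤ w.length := by
  set T : U → Prop := fun u => ∃ v, H.Adj u v ∧ Sum.inl (Sum.inr u) ∉ w ∧
    Sum.inl (Sum.inr v) ∉ w with hT
  refine ⟨Finset.univ.filter (fun a => Sum.inl (Sum.inr a) ∈ w ∨ T a), ?_, ?_⟩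
  · intro u v huv
    rw [Finset.mem_filter, Finset.mem_filter]
    by_cases h1 : Sum.inl (Sum.inr u) ∈ w
    · exact Or.inl ⟨Finset.mem_univ _, Or.inl h1⟩
    · by_cases h2 : Sum.inl (Sum.inr v) ∈ w
      · exact Or.inr ⟨Finset.mem_univ _, Or.inl h2⟩
      · exact Or.inl ⟨Finset.mem_univ _, Or.inr ⟨v, huv, h1, h2⟩⟩
  set ex : Col U → ℕ := fun c => if (∀ r, rinc H r c → Sum.inl r ∉ w) then 1 else 0 with hex
  have hcol : ∀ c, 2 + ex c ≤ cnt (Sum.inr c) w := by
    intro c
    rw [hex]
    dsimp only
    split_ifs with h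
    · exact col_cnt' H hw c h
    · exact col_cnt H hw c
  have hlen := sum_cnt w
  rw [Fintype.sum_sum_type, Fintype.sum_sum_type (fun r => cnt (Sum.inl r) w),
    Fintype.sum_bool] at hlen
  -- columns
  have hcols : ∑ c : Col U, (2 + ex c) ≤ ∑ c : Col U, cnt (Sum.inr c) w :=
    Finset.sum_le_sum fun c _ => hcol c
  rw [Finset.sum_add_distrib, Finset.sum_const, smul_eq_mul, Finset.card_univ] at hcols
  have hcard : Fintype.card (Col U) = 8 * (Fintype.card U) ^ 2 + 6 * Fintype.card U + 8 := by
    rw [Fintype.card_sum, Fintype.card_sum, Fintype.card_prod, Fintype.card_prod,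
      Fintype.card_prod, Fintype.card_prod, Fintype.card_prod, Fintype.card_fin, Fintype.card_fin,
      Fintype.card_fin, Fintype.card_bool]
    ring
  rw [hcard] at hcols
  -- the extra terms
  have hex1 : ∑ c : Col U, ex c = ∑ i : Fin 8, ex (cb i) +
      (∑ x : Fin 3 × Bool × U, ex (Sum.inr (Sum.inl x)) +
        ∑ x : Fin 4 × Bool × U × U, ex (Sum.inr (Sum.inr x))) := by
    rw [Fintype.sum_sum_type, Fintype.sum_sum_type]
  have hex2 : ex (cb 2) + ex (cb 5) + ex (cb 3) + ex (cb 4) ≤ ∑ i : Fin 8, ex (cb i) := by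
    rw [Fin.sum_univ_eight]
    omega
  have hex3 : 2 * ∑ u : U, (if T u then 1 else 0) ≤
      ∑ x : Fin 4 × Bool × U × U, ex (Sum.inr (Sum.inr x)) := by
    have h1 : ∑ y : Bool × U × U, ex (Sum.inr (Sum.inr (0, y))) ≤
        ∑ x : Fin 4 × Bool × U × U, ex (Sum.inr (Sum.inr x)) := by
      rw [Fintype.sum_prod_type (f := fun x : Fin 4 × Bool × U × U => ex (Sum.inr (Sum.inr x)))]
      exact Finset.single_le_sum (f := fun t : Fin 4 =>
        ∑ y : Bool × U × U, ex (Sum.inr (Sum.inr (t, y)))) (fun _ _ => Nat.zero_le _)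
        (Finset.mem_univ 0)
    refine le_trans ?_ h1
    rw [Fintype.sum_prod_type, Fintype.sum_bool]
    have h2 : ∀ j : Bool, ∑ u : U, (if T u then 1 else 0) ≤
        ∑ y : U × U, ex (Sum.inr (Sum.inr (0, j, y))) := by
      intro j
      rw [Fintype.sum_prod_type]
      apply Finset.sum_le_sum
      intro u _
      split_ifs with h
      · obtain ⟨v, huv, h3, h4⟩ := h
        have h5 : ex (Sum.inr (Sum.inr (0, j, u, v))) = 1 := by
          rw [hex]
          dsimp only
          rw [if_pos]
          rintro ((_ | _) | a) hr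
          · simp [rinc] at hr
          · simp [rinc, huv] at hr
          · simp only [rinc, true_and] at hr
            rcases hr with ⟨_, hr⟩ | hr | hr
            · rcases hr with rfl | rfl
              · exact h3
              · exact h4
            · exact absurd hr.1 (by decide)
            · exact absurd hr.1 (by decide)
        rw [← h5]
        exact Finset.single_le_sum (f := fun v : U => ex (Sum.inr (Sum.inr (0, j, u, v))))
          (fun _ _ => Nat.zero_le _) (Finset.mem_univ v)
      · exact Nat.zero_le _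
    have h3 := h2 true
    have h4 := h2 false
    omega
  -- the rows f and g
  have hf : 2 ≤ cnt (Sum.inl (Sum.inl false)) w + ex (cb 2) + ex (cb 5) := by
    by_cases h : Sum.inl (Sum.inl false) ∈ w
    · have h1 : 0 < cnt (Sum.inl (Sum.inl false)) w := cnt_pos h
      have h2 := row_cnt H hw (Sum.inl false)
      omega
    · have h2 : ex (cb 2) = 1 := by
        rw [hex]
        dsimp only
        rw [if_pos]
        rintro ((_ | _) | a) hr
        · exact h
        · simp [rinc] at hr
        · simp [rinc] at hr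
      have h5 : ex (cb 5) = 1 := by
        rw [hex]
        dsimp only
        rw [if_pos]
        rintro ((_ | _) | a) hr
        · exact h
        · simp [rinc] at hr
        · simp [rinc] at hr
      omega
  have hg : 2 ≤ cnt (Sum.inl (Sum.inl true)) w + ex (cb 3) + ex (cb 4) := by
    by_cases h : Sum.inl (Sum.inl true) ∈ w
    · have h1 : 0 < cnt (Sum.inl (Sum.inl true)) w := cnt_pos h
      have h2 := row_cnt H hw (Sum.inl true)
      omega
    · have h2 : ex (cb 3) = 1 := by
        rw [hex]
        dsimp only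
        rw [if_pos]
        rintro ((_ | _) | a) hr
        · simp [rinc] at hr
        · exact h
        · simp [rinc] at hr
      have h5 : ex (cb 4) = 1 := by
        rw [hex]
        dsimp only
        rw [if_pos]
        rintro ((_ | _) | a) hr
        · simp [rinc] at hr
        · exact h
        · simp [rinc] at hr
      omega
  -- the rows of U
  have hU : 2 * ∑ a : U, (if Sum.inl (Sum.inr a) ∈ w then 1 else 0) ≤
      ∑ a : U, cnt (Sum.inl (Sum.inr a)) w := by
    rw [Finset.mul_sum]
    apply Finset.sum_le_sum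
    intro a _
    split_ifs with h
    · have h1 : 0 < cnt (Sum.inl (Sum.inr a)) w := cnt_pos h
      have h2 := row_cnt H hw (Sum.inr a)
      omega
    · simp
  have hS : (Finset.univ.filter (fun a => Sum.inl (Sum.inr a) ∈ w ∨ T a)).card ≤
      ∑ a : U, (if Sum.inl (Sum.inr a) ∈ w then 1 else 0) + ∑ u : U, (if T u then 1 else 0) := by
    rw [Finset.card_filter, ← Finset.sum_add_distrib]
    apply Finset.sum_le_sum
    intro a _
    by_cases h1 : Sum.inl (Sum.inr a) ∈ w
    · simp [h1]
    · by_cases h2 : T a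
      · simp [h1, h2]
      · simp [h1, h2]
  omega

omit hw in
/-- The exact correspondence. -/
theorem cover_iff (k : ℕ) : (∃ S : Finset U, S.card ≤ k ∧ ∀ u v, H.Adj u v → u ∈ S ∨ v ∈ S) ↔
    cr (redG H) ≤ ((16 * (Fintype.card U) ^ 2 + 12 * Fintype.card U + 20 + 2 * k : ℕ) : ℕ∞) := by
  rw [cr_le_iff]
  constructor
  · rintro ⟨S, h1, h2⟩
    refine ⟨fullWord H S, ?_, upper_bound H S h2⟩
    rw [length_fullWord H S h2]
    omega
  · rintro ⟨w, hlen, hw⟩
    obtain ⟨S, h1, h2⟩ := lower_bound H hw
    exact ⟨S, by omega, h1⟩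

end Pool.Agent.H40.CR
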