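import Mathlib
import Pool.Agent.H40.CR.Lower

/-!
# The colour-reversal number is an isomorphism invariant
-/

namespace Pool.Agent.H40.CR

variable {V W : Type*}

theorem gr_iso (e : V ≃ W) (w : List V) : ∀ (G : SimpleGraph V) (G' : SimpleGraph W),
    (∀ x y, G'.Adj (e x) (e y) ↔ G.Adj x y) →
    ∀ x y, (gr G' (w.map e)).Adj (e x) (e y) ↔ (gr G w).Adj x y := by
  induction w with
  | nil => intro G G' h x y; exact h x y
  | cons a w ih =>
    intro G G' h x y
    rw [List.map_cons, gr_cons, gr_cons]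
    apply ih
    intro x y
    rw [localComp_adj, localComp_adj, h, h, h]
    simp

theorem word_iso (e : V ≃ W) (w : List V) : ∀ (G : SimpleGraph V) (G' : SimpleGraph W),
    (∀ x y, G'.Adj (e x) (e y) ↔ G.Adj x y) →
    ∀ x, word G' (w.map e) (e x) = word G w x := by
  induction w with
  | nil => intro G G' h x; rfl
  | cons a w ih =>
    intro G G' h x
    rw [List.map_cons, word, word]
    have h1 : word (localComp G' (e a)) (w.map e) (e x) = word (localComp G a) w x := by
      apply ih
      intro x y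
      rw [localComp_adj, localComp_adj, h, h, h]
      simp
    rw [h1]
    have h2 : letter G' (e a) (e x) = letter G a x := by
      unfold letter
      rw [h]
      by_cases hax : a = x
      · rw [if_pos hax, if_pos (by rw [hax])]
      · rw [if_neg hax, if_neg (fun h' => hax (e.injective h'))]
    rw [h2]

theorem reverses_iso (e : V ≃ W) (G : SimpleGraph V) (G' : SimpleGraph W)
    (h : ∀ x y, G'.Adj (e x) (e y) ↔ G.Adj x y) (w : List V) (hw : Reverses G w) :
    Reverses G' (w.map e) := by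
  rw [reverses_iff] at hw ⊢
  obtain ⟨h1, h2⟩ := hw
  constructor
  · ext x y
    obtain ⟨x, rfl⟩ := e.surjective x
    obtain ⟨y, rfl⟩ := e.surjective y
    rw [gr_iso e w G G' h, h1, h]
  · intro v
    obtain ⟨v, rfl⟩ := e.surjective v
    have h3 := h2 v
    unfold hits at h3 ⊢
    rwa [word_iso e w G G' h]

theorem cr_iso (e : V ≃ W) (G : SimpleGraph V) (G' : SimpleGraph W)
    (h : ∀ x y, G'.Adj (e x) (e y) ↔ G.Adj x y) (k : ℕ) :
    cr G' ≤ (k : ℕ∞) ↔ cr G ≤ (k : ℕ∞) := by
  rw [cr_le_iff, cr_le_iff]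
  constructor
  · rintro ⟨w, h1, h2⟩
    refine ⟨w.map e.symm, by simpa using h1, ?_⟩
    apply reverses_iso e.symm G' G _ w h2
    intro x y
    rw [← h]
    simp
  · rintro ⟨w, h1, h2⟩
    exact ⟨w.map e, by simpa using h1, reverses_iso e G G' h w h2⟩

/-! ### The reduction graph on `Fin N` -/

/-- The number of vertices of the reduction graph. -/
def NN (n : ℕ) : ℕ := (2 + n) + (8 + (3 * (2 * n) + 4 * (2 * (n * n))))

/-- Numbering of the rows. -/
def eRow (n : ℕ) : Bool ⊕ Fin n ≃ Fin (2 + n) :=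
  (Equiv.sumCongr finTwoEquiv.symm (Equiv.refl _)).trans finSumFinEquiv

/-- Numbering of the columns. -/
def eCol (n : ℕ) : Col (Fin n) ≃ Fin (8 + (3 * (2 * n) + 4 * (2 * (n * n)))) :=
  (Equiv.sumCongr (Equiv.refl _)
    ((Equiv.sumCongr
      ((Equiv.prodCongr (Equiv.refl _)
        ((Equiv.prodCongr finTwoEquiv.symm (Equiv.refl _)).trans finProdFinEquiv)).trans
          finProdFinEquiv)
      ((Equiv.prodCongr (Equiv.refl _)
        ((Equiv.prodCongr finTwoEquiv.symm finProdFinEquiv).trans finProdFinEquiv)).trans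
          finProdFinEquiv)).trans finSumFinEquiv)).trans finSumFinEquiv

/-- Numbering of the vertices. -/
def eV (n : ℕ) : (Bool ⊕ Fin n) ⊕ Col (Fin n) ≃ Fin (NN n) :=
  (Equiv.sumCongr (eRow n) (eCol n)).trans finSumFinEquiv

/-- Code of a truth value. -/
def bv (e : Bool) : ℕ := if e then 1 else 0

theorem bv_lt (e : Bool) : bv e < 2 := by cases e <;> decide

theorem finTwo_val (e : Bool) : (finTwoEquiv.symm e).val = bv e := by cases e <;> rfl

theorem eV_row (n : ℕ) (r : Bool ⊕ Fin n) : (eV n (Sum.inl r)).val = (eRow n r).val := by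
  unfold eV
  rfl

theorem eV_col (n : ℕ) (c : Col (Fin n)) : (eV n (Sum.inr c)).val = 2 + n + (eCol n c).val := by
  unfold eV
  rfl

theorem eRow_inl (n : ℕ) (b : Bool) : (eRow n (Sum.inl b)).val = bv b := by
  cases b <;> rfl

theorem eRow_inr (n : ℕ) (a : Fin n) : (eRow n (Sum.inr a)).val = 2 + a.val := by
  simp [eRow]

theorem eCol_cb (n : ℕ) (i : Fin 8) : (eCol n (cb i)).val = i.val := by
  simp [eCol]

theorem eCol_cv (n : ℕ) (i : Fin 3) (e : Bool) (b : Fin n) : (eCol n (cv i e b)).val =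
    8 + (b.val + n * bv e + 2 * n * i.val) := by
  simp [eCol, finTwo_val]

theorem eCol_cp (n : ℕ) (t : Fin 4) (j : Bool) (u v : Fin n) : (eCol n (cp t j u v)).val =
    8 + (3 * (2 * n) + (v.val + n * u.val + n * n * bv j + 2 * (n * n) * t.val)) := by
  simp [eCol, finTwo_val]

end Pool.Agent.H40.CR
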