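import Mathlib
import Pool.Agent.H40.CR.Iso
import Pool.Agent.H7.Comp.Arith

/-!
# Arithmetic description of the reduction graph, polynomial time
-/

namespace Pool.Agent.H40.CR

/-- Incidence of base columns. -/
def incB (r c : ℕ) : Prop :=
  c < 8 ∧ ((r = 0 ∧ (c = 0 ∨ (c = 1 ∨ (c = 2 ∨ (c = 5 ∨ c = 6))))) ∨
    (r = 1 ∧ (c = 0 ∨ (c = 1 ∨ (c = 3 ∨ (c = 4 ∨ c = 7))))))

/-- Incidence of the columns of vertex gadgets. -/
def incVx (n r y : ℕ) : Prop :=
  y < 3 * (2 * n) ∧ ((r = 0 ∧ (y / (2 * n) = 0 ∨ y / (2 * n) = 2)) ∨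
    ((r = 1 ∧ (y / (2 * n) = 1 ∨ y / (2 * n) = 2)) ∨ (y / n % 2 = 1 ∧ r = 2 + y % n)))

/-- Incidence of the columns of pair gadgets. -/
def incPr (n : ℕ) (E : ℕ → ℕ → Prop) (r z : ℕ) : Prop :=
  (r = 0 ∧ (z / (2 * (n * n)) = 1 ∨ z / (2 * (n * n)) = 2)) ∨
  ((r = 1 ∧ (z / (2 * (n * n)) = 3 ∨ (z / (2 * (n * n)) = 0 ∧ ¬ E (z / n % n) (z % n)))) ∨
  ((z / (2 * (n * n)) = 0 ∧ (E (z / n % n) (z % n) ∧ (r = 2 + z / n % n ∨ r = 2 + z % n))) ∨
  ((z / (2 * (n * n)) = 1 ∧ r = 2 + z / n % n) ∨ (z / (2 * (n * n)) = 2 ∧ r = 2 + z % n))))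

/-- Incidence. -/
def incN (n : ℕ) (E : ℕ → ℕ → Prop) (r c : ℕ) : Prop :=
  incB r c ∨ ((8 ≤ c ∧ incVx n r (c - 8)) ∨
    (8 + 3 * (2 * n) ≤ c ∧ incPr n E r (c - (8 + 3 * (2 * n)))))

/-- Adjacency. -/
def adjN (n : ℕ) (E : ℕ → ℕ → Prop) (p q : ℕ) : Prop :=
  ((p < 2 + n ∧ 2 + n ≤ q) ∧ incN n E p (q - (2 + n))) ∨
    ((q < 2 + n ∧ 2 + n ≤ p) ∧ incN n E q (p - (2 + n)))

theorem vx_mod (n b e i : ℕ) (hb : b < n) : (b + n * e + 2 * n * i) % n = b := by
  have : b + n * e + 2 * n * i = b + n * (e + 2 * i) := by ring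
  rw [this, Nat.add_mul_mod_self_left, Nat.mod_eq_of_lt hb]

theorem vx_div_mod (n b e i : ℕ) (hb : b < n) (he : e < 2) :
    (b + n * e + 2 * n * i) / n % 2 = e := by
  have : b + n * e + 2 * n * i = b + n * (e + 2 * i) := by ring
  rw [this, Nat.add_mul_div_left _ _ (by omega), Nat.div_eq_of_lt hb, zero_add,
    Nat.add_mul_mod_self_left, Nat.mod_eq_of_lt he]

theorem vx_div (n b e i : ℕ) (hb : b < n) (he : e < 2) :
    (b + n * e + 2 * n * i) / (2 * n) = i := by
  rw [Nat.add_mul_div_left _ _ (by omega), Nat.div_eq_of_lt, zero_add]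
  have : n * e ≤ n * 1 := Nat.mul_le_mul_left _ (by omega)
  omega

theorem pr_mod (n v u j t : ℕ) (hv : v < n) :
    (v + n * u + n * n * j + 2 * (n * n) * t) % n = v := by
  have : v + n * u + n * n * j + 2 * (n * n) * t = v + n * (u + n * j + 2 * n * t) := by ring
  rw [this, Nat.add_mul_mod_self_left, Nat.mod_eq_of_lt hv]

theorem pr_div_mod (n v u j t : ℕ) (hv : v < n) (hu : u < n) :
    (v + n * u + n * n * j + 2 * (n * n) * t) / n % n = u := by
  have : v + n * u + n * n * j + 2 * (n * n) * t = v + n * (u + n * (j + 2 * t)) := by ring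
  rw [this, Nat.add_mul_div_left _ _ (by omega), Nat.div_eq_of_lt hv, zero_add,
    Nat.add_mul_mod_self_left, Nat.mod_eq_of_lt hu]

theorem pr_div (n v u j t : ℕ) (hv : v < n) (hu : u < n) (hj : j < 2) :
    (v + n * u + n * n * j + 2 * (n * n) * t) / (2 * (n * n)) = t := by
  have h1 : n * u + n ≤ n * n := by
    have : n * (u + 1) ≤ n * n := Nat.mul_le_mul_left _ (by omega)
    rw [mul_add, mul_one] at this
    exact this
  have h2 : n * n * j ≤ n * n * 1 := Nat.mul_le_mul_left _ (by omega)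
  rw [mul_one] at h2
  have h3 : 0 < n * n := Nat.mul_pos (by omega) (by omega)
  rw [Nat.add_mul_div_left _ _ (by omega), Nat.div_eq_of_lt (by omega), zero_add]

theorem incB_iff (n : ℕ) (H : SimpleGraph (Fin n)) (r : Bool ⊕ Fin n) (i : Fin 8) :
    incB (eRow n r).val i.val ↔ rinc H r (cb i) := by
  have h2 : ∀ a : Fin n, ¬ (2 + a.val = 0) := fun a => by omega
  have h3 : ∀ a : Fin n, ¬ (2 + a.val = 1) := fun a => by omega
  rcases r with (_ | _) | a
  · rw [eRow_inl]
    simp only [incB, rinc, bv]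
    fin_cases i <;> simp
  · rw [eRow_inl]
    simp only [incB, rinc, bv]
    fin_cases i <;> simp
  · rw [eRow_inr]
    simp [incB, rinc, h2, h3]

theorem row_eq_iff (n : ℕ) (r : Bool ⊕ Fin n) (b : Fin n) :
    (eRow n r).val = 2 + b.val ↔ r = Sum.inr b := by
  rw [← eRow_inr n b, ← Fin.ext_iff, (eRow n).injective.eq_iff]

theorem incVx_iff (n : ℕ) (H : SimpleGraph (Fin n)) (r : Bool ⊕ Fin n) (i : Fin 3) (e : Bool)
    (b : Fin n) : incVx n (eRow n r).val (b.val + n * bv e + 2 * n * i.val) ↔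
      rinc H r (cv i e b) := by
  have hlt : b.val + n * bv e + 2 * n * i.val < 3 * (2 * n) := by
    have h1 : n * bv e ≤ n * 1 := Nat.mul_le_mul_left _ (by have := bv_lt e; omega)
    have h2 : 2 * n * i.val ≤ 2 * n * 2 := Nat.mul_le_mul_left _ (by omega)
    have := b.isLt
    omega
  have he : bv e = 1 ↔ e = true := by cases e <;> simp [bv]
  have h2 : ∀ a : Fin n, ¬ (2 + a.val = 0) := fun a => by omega
  have h3 : ∀ a : Fin n, ¬ (2 + a.val = 1) := fun a => by omega
  unfold incVx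
  rw [and_iff_right hlt, vx_div n b.val (bv e) i.val b.isLt (bv_lt e), vx_div_mod n b.val (bv e) i.val b.isLt
    (bv_lt e), vx_mod n b.val (bv e) i.val b.isLt, row_eq_iff, he]
  rcases r with (_ | _) | a
  · rw [eRow_inl]
    simp only [rinc, bv]
    fin_cases i <;> simp
  · rw [eRow_inl]
    simp only [rinc, bv]
    fin_cases i <;> simp
  · rw [eRow_inr]
    simp [rinc, h3]

/-- Adjacency of a graph on `Fin n` as a relation on natural numbers. -/
def adjNat' {n : ℕ} (G : SimpleGraph (Fin n)) (u w : ℕ) : Prop :=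
  ∃ (hu : u < n) (hw : w < n), G.Adj ⟨u, hu⟩ ⟨w, hw⟩

theorem adjNat'_val {n : ℕ} (G : SimpleGraph (Fin n)) (u w : Fin n) :
    adjNat' G u.val w.val ↔ G.Adj u w :=
  ⟨fun ⟨_, _, h⟩ => h, fun h => ⟨u.isLt, w.isLt, h⟩⟩

theorem incPr_iff (n : ℕ) (H : SimpleGraph (Fin n)) (r : Bool ⊕ Fin n) (t : Fin 4) (j : Bool)
    (u v : Fin n) : incPr n (adjNat' H) (eRow n r).val
      (v.val + n * u.val + n * n * bv j + 2 * (n * n) * t.val) ↔ rinc H r (cp t j u v) := by
  have h2 : ∀ a : Fin n, ¬ (2 + a.val = 0) := fun a => by omega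
  have h3 : ∀ a : Fin n, ¬ (2 + a.val = 1) := fun a => by omega
  unfold incPr
  rw [pr_div n v.val u.val (bv j) t.val v.isLt u.isLt (bv_lt j), pr_div_mod n v.val u.val (bv j)
    t.val v.isLt u.isLt, pr_mod n v.val u.val (bv j) t.val v.isLt, row_eq_iff, row_eq_iff,
    adjNat'_val]
  rcases r with (_ | _) | a
  · rw [eRow_inl]
    simp only [rinc, bv]
    fin_cases t <;> simp
  · rw [eRow_inl]
    simp only [rinc, bv]
    fin_cases t <;> simp
  · rw [eRow_inr]
    fin_cases t <;> simp [rinc, h3]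

theorem incN_iff (n : ℕ) (H : SimpleGraph (Fin n)) (r : Bool ⊕ Fin n) (c : Col (Fin n)) :
    incN n (adjNat' H) (eRow n r).val (eCol n c).val ↔ rinc H r c := by
  unfold incN
  rcases c with i | ⟨i, e, b⟩ | ⟨t, j, u, v⟩
  · rw [← incB_iff, eCol_cb]
    constructor
    · rintro (h | h | h)
      · exact h
      · have := i.isLt; omega
      · have := i.isLt; omega
    · intro h; exact Or.inl h
  · rw [← incVx_iff, eCol_cv]
    have h1 : 8 + (b.val + n * bv e + 2 * n * i.val) - 8 = b.val + n * bv e + 2 * n * i.val := by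
      omega
    have hlt : b.val + n * bv e + 2 * n * i.val < 3 * (2 * n) := by
      have h1 : n * bv e ≤ n * 1 := Nat.mul_le_mul_left _ (by have := bv_lt e; omega)
      have h2 : 2 * n * i.val ≤ 2 * n * 2 := Nat.mul_le_mul_left _ (by omega)
      have := b.isLt
      omega
    rw [h1]
    constructor
    · rintro (h | h | h)
      · have := h.1; omega
      · exact h.2
      · omega
    · intro h; exact Or.inr (Or.inl ⟨by omega, h⟩)
  · rw [← incPr_iff, eCol_cp]
    generalize hz : v.val + n * u.val + n * n * bv j + 2 * (n * n) * t.val = z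
    have h1 : 8 + (3 * (2 * n) + z) - (8 + 3 * (2 * n)) = z := by omega
    have h2 : 8 + (3 * (2 * n) + z) - 8 = 3 * (2 * n) + z := by omega
    rw [h1, h2]
    constructor
    · rintro (h | h | h)
      · have := h.1; omega
      · have := h.2.1; omega
      · exact h.2
    · intro h; exact Or.inr (Or.inr ⟨by omega, h⟩)

/-- The reduction graph on `Fin (NN n)`. -/
def redFin (n : ℕ) (H : SimpleGraph (Fin n)) : SimpleGraph (Fin (NN n)) :=
  (redG H).comap (eV n).symm

theorem redFin_adj (n : ℕ) (H : SimpleGraph (Fin n)) (p q : Fin (NN n)) :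
    (redFin n H).Adj p q ↔ adjN n (adjNat' H) p.val q.val := by
  obtain ⟨x, rfl⟩ := (eV n).surjective p
  obtain ⟨y, rfl⟩ := (eV n).surjective q
  have h0 : (redFin n H).Adj (eV n x) (eV n y) ↔ (redG H).Adj x y := by
    unfold redFin
    rw [SimpleGraph.comap_adj, Equiv.symm_apply_apply, Equiv.symm_apply_apply]
  rw [h0]
  unfold adjN
  rcases x with r | c <;> rcases y with r' | c'
  · rw [eV_row, eV_row]
    have h1 := (eRow n r).isLt
    have h2 := (eRow n r').isLt
    constructor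
    · intro h; exact absurd h (fun h => h)
    · rintro (h | h)
      · omega
      · omega
  · rw [eV_row, eV_col]
    have h1 := (eRow n r).isLt
    have h2 : 2 + n + (eCol n c').val - (2 + n) = (eCol n c').val := by omega
    rw [h2, incN_iff]
    constructor
    · intro h; exact Or.inl ⟨⟨h1, by omega⟩, h⟩
    · rintro (h | h)
      · exact h.2
      · omega
  · rw [eV_row, eV_col]
    have h1 := (eRow n r').isLt
    have h2 : 2 + n + (eCol n c).val - (2 + n) = (eCol n c).val := by omega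
    rw [h2, incN_iff]
    constructor
    · intro h; exact Or.inr ⟨⟨h1, by omega⟩, h⟩
    · rintro (h | h)
      · omega
      · exact h.2
  · rw [eV_col, eV_col]
    constructor
    · intro h; exact absurd h (fun h => h)
    · rintro (h | h)
      · omega
      · omega

theorem cover_iff_fin (n : ℕ) (H : SimpleGraph (Fin n)) (k : ℕ) :
    (∃ S : Finset (Fin n), S.card ≤ k ∧ ∀ u v, H.Adj u v → u ∈ S ∨ v ∈ S) ↔
    cr (redFin n H) ≤ ((16 * n ^ 2 + 12 * n + 20 + 2 * k : ℕ) : ℕ∞) := by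
  rw [cover_iff H k, Fintype.card_fin]
  rw [cr_iso (eV n) (redG H) (redFin n H)]
  intro x y
  unfold redFin
  rw [SimpleGraph.comap_adj, Equiv.symm_apply_apply, Equiv.symm_apply_apply]

end Pool.Agent.H40.CR
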