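import Mathlib
import Pool.Agent.H40.CR.Num

/-!
# The reduction is computable in polynomial time

Polynomial time is meant in the model of `Pool.Agent.H7.Comp.Model` (while-programs over binary
trees with unit cost).
-/

namespace Pool.Agent.H40.CR

open Pool.Agent.H7.Comp

section Adj

variable {α : Type} [Enc α]

/-- Adjacency read off from an adjacency matrix given as list of rows. -/
def matAdj (rows : List (List Bool)) (u w : ℕ) : Prop := (rows.getD u []).getD w false = true

lemma ptp_matAdj {r : α → List (List Bool)} {u w : α → ℕ} (hr : PT r) (hu : PT u) (hw : PT w) :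
    PTp (fun x => matAdj (r x) (u x) (w x)) :=
  PTp.ofBool (PT.getD (PT.getD hr hu (PT.const [])) hw (PT.const false))

lemma ptp_eqc {f : α → ℕ} (hf : PT f) (c : ℕ) : PTp (fun x => f x = c) :=
  PTp.eq hf (PT.const c)

lemma ptp_incB {r c : α → ℕ} (hr : PT r) (hc : PT c) : PTp (fun x => incB (r x) (c x)) := by
  unfold incB
  exact (PTp.lt hc (PT.const 8)).and
    (((ptp_eqc hr 0).and ((ptp_eqc hc 0).or ((ptp_eqc hc 1).or ((ptp_eqc hc 2).or
      ((ptp_eqc hc 5).or (ptp_eqc hc 6)))))).or
    ((ptp_eqc hr 1).and ((ptp_eqc hc 0).or ((ptp_eqc hc 1).or ((ptp_eqc hc 3).or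
      ((ptp_eqc hc 4).or (ptp_eqc hc 7)))))))

lemma ptp_incVx {n r y : α → ℕ} (hn : PT n) (hr : PT r) (hy : PT y) :
    PTp (fun x => incVx (n x) (r x) (y x)) := by
  have h2n : PT (fun x => 2 * n x) := (PT.const 2).mul hn
  have hd : PT (fun x => y x / (2 * n x)) := hy.div h2n
  unfold incVx
  exact (PTp.lt hy ((PT.const 3).mul h2n)).and
    (((ptp_eqc hr 0).and ((ptp_eqc hd 0).or (ptp_eqc hd 2))).or
    (((ptp_eqc hr 1).and ((ptp_eqc hd 1).or (ptp_eqc hd 2))).or
    ((ptp_eqc ((hy.div hn).mod (PT.const 2)) 1).and (PTp.eq hr ((PT.const 2).add (hy.mod hn))))))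

lemma ptp_incPr {n r z : α → ℕ} {m : α → List (List Bool)} (hm : PT m) (hn : PT n) (hr : PT r)
    (hz : PT z) : PTp (fun x => incPr (n x) (matAdj (m x)) (r x) (z x)) := by
  have h2n : PT (fun x => 2 * (n x * n x)) := (PT.const 2).mul (hn.mul hn)
  have hd : PT (fun x => z x / (2 * (n x * n x))) := hz.div h2n
  have hu : PT (fun x => z x / n x % n x) := (hz.div hn).mod hn
  have hv : PT (fun x => z x % n x) := hz.mod hn
  have hE := ptp_matAdj hm hu hv
  have ru : PTp (fun x => r x = 2 + z x / n x % n x) := PTp.eq hr ((PT.const 2).add hu)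
  have rv : PTp (fun x => r x = 2 + z x % n x) := PTp.eq hr ((PT.const 2).add hv)
  unfold incPr
  exact ((ptp_eqc hr 0).and ((ptp_eqc hd 1).or (ptp_eqc hd 2))).or
    (((ptp_eqc hr 1).and ((ptp_eqc hd 3).or ((ptp_eqc hd 0).and hE.not))).or
    (((ptp_eqc hd 0).and (hE.and (ru.or rv))).or
    (((ptp_eqc hd 1).and ru).or ((ptp_eqc hd 2).and rv))))

lemma ptp_incN {n r c : α → ℕ} {m : α → List (List Bool)} (hm : PT m) (hn : PT n) (hr : PT r)
    (hc : PT c) : PTp (fun x => incN (n x) (matAdj (m x)) (r x) (c x)) := by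
  have h6 : PT (fun x => 8 + 3 * (2 * n x)) :=
    (PT.const 8).add ((PT.const 3).mul ((PT.const 2).mul hn))
  unfold incN
  exact (ptp_incB hr hc).or
    (((PTp.le (PT.const 8) hc).and (ptp_incVx hn hr (hc.sub (PT.const 8)))).or
    ((PTp.le h6 hc).and (ptp_incPr hm hn hr (hc.sub h6))))

lemma ptp_adjN {n p q : α → ℕ} {m : α → List (List Bool)} (hm : PT m) (hn : PT n) (hp : PT p)
    (hq : PT q) : PTp (fun x => adjN (n x) (matAdj (m x)) (p x) (q x)) := by
  have h2 : PT (fun x => 2 + n x) := (PT.const 2).add hn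
  unfold adjN
  exact (((PTp.lt hp h2).and (PTp.le h2 hq)).and (ptp_incN hm hn hp (hq.sub h2))).or
    (((PTp.lt hq h2).and (PTp.le h2 hp)).and (ptp_incN hm hn hq (hp.sub h2)))

end Adj

open Classical in
/-- Adjacency bit of the reduction graph. -/
noncomputable def redBit (x : ℕ × List (List Bool) × ℕ) (u v : ℕ) : Bool :=
  decide (adjN x.1 (matAdj x.2.1) u v)

/-- A row of the adjacency matrix of the reduction graph. -/
noncomputable def redRow (x : ℕ × List (List Bool) × ℕ) (u : ℕ) : List Bool :=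
  (List.range (NN x.1)).map (redBit x u)

/-- The bound of the reduction. -/
def redK (n k : ℕ) : ℕ := 16 * n ^ 2 + 12 * n + 20 + 2 * k

/-- The reduction as a function on encoded instances. -/
noncomputable def redFun (x : ℕ × List (List Bool) × ℕ) : ℕ × List (List Bool) × ℕ :=
  (NN x.1, (List.range (NN x.1)).map (redRow x), redK x.1 x.2.2)

lemma pt_NN {α : Type} [Enc α] {n : α → ℕ} (hn : PT n) : PT (fun x => NN (n x)) := by
  unfold NN
  exact ((PT.const 2).add hn).add ((PT.const 8).add (((PT.const 3).mul ((PT.const 2).mul hn)).add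
    ((PT.const 4).mul ((PT.const 2).mul (hn.mul hn)))))

lemma pt_redBit : PT (fun p : ((ℕ × List (List Bool) × ℕ) × ℕ) × ℕ => redBit p.1.1 p.1.2 p.2) := by
  classical
  have hn : PT (fun x : ℕ × List (List Bool) × ℕ => x.1) := PT.fst
  have hr : PT (fun x : ℕ × List (List Bool) × ℕ => x.2.1) := PT.fst.comp PT.snd
  have g1 : PT (fun p : ((ℕ × List (List Bool) × ℕ) × ℕ) × ℕ => p.1.1) := PT.fst.comp PT.fst
  have g2 : PT (fun p : ((ℕ × List (List Bool) × ℕ) × ℕ) × ℕ => p.1.2) := PT.snd.comp PT.fst
  have g3 : PT (fun p : ((ℕ × List (List Bool) × ℕ) × ℕ) × ℕ => p.2) := PT.snd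
  exact PTp.toPT (ptp_adjN (hr.comp g1) (hn.comp g1) g2 g3)

lemma pt_redRow : PT (fun p : (ℕ × List (List Bool) × ℕ) × ℕ => redRow p.1 p.2) :=
  PT.mapRange (n := fun p : (ℕ × List (List Bool) × ℕ) × ℕ => NN p.1.1)
    (f := fun p v => redBit p.1 p.2 v) ((pt_NN PT.fst).comp PT.fst) pt_redBit

/-- **The reduction is computable in polynomial time.** -/
theorem pt_redFun : PT redFun := by
  have hn : PT (fun x : ℕ × List (List Bool) × ℕ => x.1) := PT.fst
  have hk : PT (fun x : ℕ × List (List Bool) × ℕ => x.2.2) := PT.snd.comp PT.snd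
  have hK : PT (fun x : ℕ × List (List Bool) × ℕ => redK x.1 x.2.2) := by
    unfold redK
    exact ((((PT.const 16).mul hn.sq).add ((PT.const 12).mul hn)).add (PT.const 20)).add
      ((PT.const 2).mul hk)
  exact (pt_NN hn).pair ((PT.mapRange (pt_NN hn) pt_redRow).pair hK)

/-! ### Coding of instances -/

/-- The tree coding a natural number in unary. -/
def natTree : ℕ → Tr
  | 0 => .nil
  | n + 1 => .node .nil (natTree n)

/-- The tree coding a list of trees. -/
def listTree : List Tr → Tr
  | [] => .nil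
  | a :: l => .node a (listTree l)

open Classical in
/-- The tree coding a graph on `Fin n`: the number `n` and the adjacency matrix. -/
noncomputable def graphTree {n : ℕ} (G : SimpleGraph (Fin n)) : Tr :=
  .node (natTree n) (listTree (List.ofFn fun u : Fin n =>
    listTree (List.ofFn fun v : Fin n => if G.Adj u v then .node .nil .nil else .nil)))

lemma natTree_eq (n : ℕ) : natTree n = enc n := by
  induction n with
  | zero => rfl
  | succ n ih =>
    show Tr.node .nil (natTree n) = Tr.node .nil (enc n)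
    rw [ih]

lemma listTree_map {β : Type} [Enc β] (l : List β) : listTree (l.map enc) = enc l := by
  induction l with
  | nil => rfl
  | cons a l ih =>
    show Tr.node (enc a) (listTree (l.map enc)) = Tr.node (enc a) (enc l)
    rw [ih]

open Classical in
/-- The adjacency matrix of a graph on `Fin n`, as a list of `n` rows, each a list of `n` bits. -/
noncomputable def adjMatrix {n : ℕ} (G : SimpleGraph (Fin n)) : List (List Bool) :=
  List.ofFn fun u => List.ofFn fun v => decide (G.Adj u v)

lemma graphTree_eq {n : ℕ} (G : SimpleGraph (Fin n)) : graphTree G = enc (n, adjMatrix G) := by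
  classical
  have h : enc (n, adjMatrix G) = Tr.node (enc n) (enc (adjMatrix G)) := rfl
  rw [h, graphTree, natTree_eq, ← listTree_map (adjMatrix G)]
  congr 2
  unfold adjMatrix
  rw [List.map_ofFn]
  congr 1
  funext u
  simp only [Function.comp]
  rw [← listTree_map, List.map_ofFn]
  congr 2
  funext v
  simp only [Function.comp]
  split_ifs with h1
  · simp only [h1, decide_true]; rfl
  · simp only [h1, decide_false]; rfl

lemma matAdj_adjMatrix {n : ℕ} (G : SimpleGraph (Fin n)) (u w : ℕ) :
    matAdj (adjMatrix G) u w ↔ adjNat' G u w := by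
  classical
  unfold matAdj adjMatrix adjNat'
  by_cases hu : u < n
  · by_cases hw : w < n
    · rw [List.getD_eq_getElem?_getD, List.getD_eq_getElem?_getD]
      simp [hu, hw]
    · rw [List.getD_eq_getElem?_getD, List.getD_eq_getElem?_getD]
      simp [hu, hw]
  · rw [List.getD_eq_getElem?_getD, List.getD_eq_getElem?_getD]
    simp [hu]

lemma ofFn_eq_range_map {β : Type} (N : ℕ) (g : ℕ → β) :
    List.ofFn (fun u : Fin N => g u) = (List.range N).map g := by
  apply List.ext_getElem
  · simp
  · intro i h1 h2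
    simp

lemma redFun_spec (n k : ℕ) (G : SimpleGraph (Fin n)) :
    redFun (n, adjMatrix G, k) = (NN n, adjMatrix (redFin n G), redK n k) := by
  classical
  have hE : matAdj (adjMatrix G) = adjNat' G := by
    funext u w
    exact propext (matAdj_adjMatrix G u w)
  have h1 : ∀ u : Fin (NN n),
      (List.ofFn fun v : Fin (NN n) => decide ((redFin n G).Adj u v)) =
        redRow (n, adjMatrix G, k) u := by
    intro u
    unfold redRow
    simp only
    rw [← ofFn_eq_range_map]
    congr 1
    funext v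
    unfold redBit
    simp only [hE]
    exact decide_eq_decide.2 (redFin_adj n G u v)
  have h2 : (List.range (NN n)).map (redRow (n, adjMatrix G, k)) = adjMatrix (redFin n G) := by
    rw [← ofFn_eq_range_map]
    unfold adjMatrix
    congr 1
    funext u
    exact (h1 u).symm
  unfold redFun
  rw [h2]

lemma sz_bits (l : List Bool) : sz l ≤ 4 * l.length + 1 := by
  induction l with
  | nil => simp [sz_nil]
  | cons a l ih =>
    rw [sz_cons, List.length_cons]
    have := sz_bool_le a
    omega

lemma sz_rows (l : List (List Bool)) (n : ℕ) (h : ∀ r ∈ l, r.length = n) :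
    sz l ≤ (4 * n + 2) * l.length + 1 := by
  induction l with
  | nil => simp [sz_nil]
  | cons a l ih =>
    rw [sz_cons, List.length_cons]
    have h1 := sz_bits a
    rw [h a (by simp)] at h1
    have h2 := ih (fun r hr => h r (by simp [hr]))
    have : (4 * n + 2) * (l.length + 1) = (4 * n + 2) * l.length + (4 * n + 2) := by ring
    omega

lemma sz_adjMatrix {n : ℕ} (G : SimpleGraph (Fin n)) : sz (adjMatrix G) ≤ (4 * n + 2) * n + 1 := by
  have h := sz_rows (adjMatrix G) n (by
    intro r hr
    unfold adjMatrix at hr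
    rw [List.mem_ofFn] at hr
    obtain ⟨u, rfl⟩ := hr
    simp)
  have h2 : (adjMatrix G).length = n := by simp [adjMatrix]
  rwa [h2] at h

lemma sz_instance {n : ℕ} (G : SimpleGraph (Fin n)) (k : ℕ) :
    sz (n, adjMatrix G, k) + 2 ≤ (n + k + 2) ^ 5 := by
  have h := sz_adjMatrix G
  rw [sz_pair, sz_pair, sz_nat, sz_nat]
  have h2 : (n + k + 2) ^ 5 ≥ (n + 2) ^ 3 * 4 + k * 8 := by
    have e1 : (n + k + 2) ^ 5 = (n + k + 2) ^ 3 * ((n + k + 2) * (n + k + 2)) := by ring
    have e2 : (n + 2) ^ 3 ≤ (n + k + 2) ^ 3 := Nat.pow_le_pow_left (by omega) 3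
    have e3 : 2 ^ 3 ≤ (n + k + 2) ^ 3 := Nat.pow_le_pow_left (by omega) 3
    rw [e1]
    have e4 : 4 + k ≤ (n + k + 2) * (n + k + 2) := by nlinarith
    calc (n + 2) ^ 3 * 4 + k * 8 ≤ (n + k + 2) ^ 3 * 4 + k * (n + k + 2) ^ 3 := by
          apply Nat.add_le_add
          · exact Nat.mul_le_mul_right _ e2
          · exact Nat.mul_le_mul_left _ e3
      _ = (n + k + 2) ^ 3 * (4 + k) := by ring
      _ ≤ _ := Nat.mul_le_mul_left _ e4
  have h3 : (n + 2) ^ 3 * 4 ≥ 4 * n ^ 2 + 4 * n + 20 := by nlinarith [Nat.zero_le (n ^ 3)]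
  nlinarith

end Pool.Agent.H40.CR
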